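import Mathlib
import Pool.Agent.Run7.h867.TW.Kraft
import Pool.Agent.Run7.h867.MZ.Adm

/-!
# A Kraft inequality for words over an alphabet of integers with probabilities (helper867)
-/

set_option autoImplicit false

namespace Run7.h867.HW

open Finset Filter Topology Run7.h867.AM Run7.h867.MZ

/-- the words of length `k` over `D` -/
def wl (D : Finset ℕ) : ℕ → Finset (List ℕ)
  | 0 => {[]}
  | k + 1 => (D ×ˢ wl D k).image fun x => x.1 :: x.2

theorem sum_wl_succ (D : Finset ℕ) (k : ℕ) (g : List ℕ → ℝ) :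
    ∑ s ∈ wl D (k + 1), g s = ∑ b ∈ D, ∑ s ∈ wl D k, g (b :: s) := by
  rw [wl, sum_image, sum_product]
  intro x _ y _ h
  simp only [List.cons.injEq] at h
  exact Prod.ext h.1 h.2

theorem mem_wl {D : Finset ℕ} {k : ℕ} : ∀ {s : List ℕ}, s ∈ wl D k ↔ (∀ a ∈ s, a ∈ D) ∧ s.length = k := by
  induction k with
  | zero =>
    intro s
    rw [wl, mem_singleton]
    constructor
    · rintro rfl; simp
    · rintro ⟨-, h⟩; exact List.length_eq_zero_iff.1 h
  | succ k ih =>
    intro s
    rw [wl, mem_image]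
    constructor
    · rintro ⟨⟨a, l⟩, h, rfl⟩
      rw [mem_product] at h
      obtain ⟨h1, h2⟩ := ih.1 h.2
      refine ⟨?_, ?_⟩
      · intro b hb
        rcases List.mem_cons.1 hb with rfl | hb
        · exact h.1
        · exact h1 b hb
      · simp only [List.length_cons]
        simp only at h2
        omega
    · rintro ⟨h1, h2⟩
      cases s with
      | nil => simp at h2
      | cons a l =>
        refine ⟨(a, l), ?_, rfl⟩
        rw [mem_product]
        refine ⟨h1 a (by simp), ih.2 ⟨fun b hb => h1 b (by simp [hb]), ?_⟩⟩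
        simp only [List.length_cons] at h2
        simp only
        omega

theorem sum_wl_add (D : Finset ℕ) (a b : ℕ) : ∀ g : List ℕ → ℝ,
    ∑ s ∈ wl D (a + b), g s = ∑ A ∈ wl D a, ∑ B ∈ wl D b, g (A ++ B) := by
  induction a with
  | zero => intro g; simp [wl]
  | succ a ih =>
    intro g
    rw [show a + 1 + b = (a + b) + 1 by ring, sum_wl_succ, sum_wl_succ]
    refine sum_congr rfl fun c _ => ?_
    rw [ih]
    rfl

/-- the probability of a word -/
def pr (p : ℕ → ℝ) (s : List ℕ) : ℝ := (s.map p).prod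

theorem pr_nil (p : ℕ → ℝ) : pr p [] = 1 := rfl

theorem pr_cons (p : ℕ → ℝ) (a : ℕ) (s : List ℕ) : pr p (a :: s) = p a * pr p s := by
  unfold pr; rw [List.map_cons, List.prod_cons]

theorem pr_append (p : ℕ → ℝ) (s t : List ℕ) : pr p (s ++ t) = pr p s * pr p t := by
  unfold pr; rw [List.map_append, List.prod_append]

theorem pr_nonneg {p : ℕ → ℝ} (hp : ∀ a, 0 ≤ p a) (s : List ℕ) : 0 ≤ pr p s := by
  induction s with
  | nil => exact zero_le_one
  | cons a s ih => rw [pr_cons]; exact mul_nonneg (hp a) ih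

theorem sum_pr_le {D : Finset ℕ} {p : ℕ → ℝ} (hp : ∀ a, 0 ≤ p a) (h1 : ∑ b ∈ D, p b ≤ 1) (k : ℕ) :
    ∑ s ∈ wl D k, pr p s ≤ 1 := by
  induction k with
  | zero => simp [wl, pr_nil]
  | succ k ih =>
    rw [sum_wl_succ]
    have : ∀ b ∈ D, ∑ s ∈ wl D k, pr p (b :: s) = p b * ∑ s ∈ wl D k, pr p s := by
      intro b _
      rw [mul_sum]
      exact sum_congr rfl fun s _ => pr_cons p b s
    rw [sum_congr rfl this, ← sum_mul]
    have h0 : 0 ≤ ∑ s ∈ wl D k, pr p s := sum_nonneg fun s _ => pr_nonneg hp s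
    calc _ ≤ 1 * ∑ s ∈ wl D k, pr p s := mul_le_mul_of_nonneg_right h1 h0
      _ ≤ 1 := by rw [one_mul]; exact ih

open Run7.h867.TW in
/-- the Kraft inequality -/
theorem kraft_words {D : Finset ℕ} {p : ℕ → ℝ} (hp : ∀ a, 0 ≤ p a) (h1 : ∑ b ∈ D, p b ≤ 1) {f : List ℕ → ℝ}
    {c x y : ℝ} (hc : 0 < c) (hy : 0 ≤ y) (hf : ∀ C, (∀ a ∈ C, a ∈ D) → ∀ b ∈ D, f (C ++ [b]) + c ≤ f C) (M : ℕ) :
    ∀ C, (∀ a ∈ C, a ∈ D) → ∑ j ∈ range M, ∑ s ∈ wl D j, (if x ≤ f (C ++ s) ∧ f (C ++ s) ≤ x + y then pr p s else 0) ≤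
      Bd c x y (f C) := by
  induction M with
  | zero => intro C _; simpa using Bd_nonneg (v := f C) hc hy
  | succ M ih =>
    intro C hCD
    have hCb : ∀ b ∈ D, ∀ a ∈ C ++ [b], a ∈ D := by
      intro b hb a ha
      rcases List.mem_append.1 ha with h | h
      · exact hCD a h
      · rw [List.mem_singleton.1 h]; exact hb
    rw [sum_range_succ']
    have e0 : ∑ s ∈ wl D 0, (if x ≤ f (C ++ s) ∧ f (C ++ s) ≤ x + y then pr p s else 0) =
        if x ≤ f C ∧ f C ≤ x + y then 1 else 0 := by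
      rw [wl, sum_singleton, List.append_nil, pr_nil]
    have e1 : ∑ j ∈ range M, ∑ s ∈ wl D (j + 1), (if x ≤ f (C ++ s) ∧ f (C ++ s) ≤ x + y then pr p s else 0) =
        ∑ b ∈ D, p b * ∑ j ∈ range M, ∑ s ∈ wl D j,
          (if x ≤ f ((C ++ [b]) ++ s) ∧ f ((C ++ [b]) ++ s) ≤ x + y then pr p s else 0) := by
      have : ∀ j ∈ range M, ∑ s ∈ wl D (j + 1), (if x ≤ f (C ++ s) ∧ f (C ++ s) ≤ x + y then pr p s else 0) =
          ∑ b ∈ D, p b * ∑ s ∈ wl D j,
          (if x ≤ f ((C ++ [b]) ++ s) ∧ f ((C ++ [b]) ++ s) ≤ x + y then pr p s else 0) := by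
        intro j _
        rw [sum_wl_succ]
        refine sum_congr rfl fun b _ => ?_
        rw [mul_sum]
        refine sum_congr rfl fun s _ => ?_
        have e2 : C ++ b :: s = (C ++ [b]) ++ s := by simp
        rw [e2, pr_cons, mul_ite, mul_zero]
      rw [sum_congr rfl this, sum_comm]
      refine sum_congr rfl fun b _ => ?_
      rw [mul_sum]
    rw [e0, e1]
    have key : ∀ u : ℝ, 0 ≤ u → (∀ b ∈ D, Bd c x y (f (C ++ [b])) ≤ u) →
        ∑ b ∈ D, p b * ∑ j ∈ range M, ∑ s ∈ wl D j,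
          (if x ≤ f ((C ++ [b]) ++ s) ∧ f ((C ++ [b]) ++ s) ≤ x + y then pr p s else 0) ≤ u := by
      intro u hu0 hu
      calc _ ≤ ∑ b ∈ D, p b * u := sum_le_sum fun b hb =>
            mul_le_mul_of_nonneg_left ((ih (C ++ [b]) (hCb b hb)).trans (hu b hb)) (hp b)
        _ = (∑ b ∈ D, p b) * u := by rw [sum_mul]
        _ ≤ 1 * u := mul_le_mul_of_nonneg_right h1 hu0
        _ = u := one_mul u
    by_cases hx : f C < x
    · rw [if_neg (fun h => by linarith [h.1]), add_zero]
      refine key _ (Bd_nonneg hc hy) fun b hb => ?_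
      have f1 := hf C hCD b hb
      have : Bd c x y (f (C ++ [b])) = 0 := by
        unfold Bd
        rw [if_pos (by linarith)]
      rw [this]
      exact Bd_nonneg hc hy
    · rw [not_lt] at hx
      by_cases hxy : f C ≤ x + y
      · rw [if_pos ⟨hx, hxy⟩]
        have e3 : Bd c x y (f C) = (f C - x) / c + 1 := by
          unfold Bd
          rw [if_neg (not_lt.2 hx), if_pos hxy]
        rw [e3, add_le_add_iff_right]
        refine key _ (div_nonneg (by linarith) hc.le) fun b hb => ?_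
        have f1 := hf C hCD b hb
        unfold Bd
        split_ifs with g1 g2
        · exact div_nonneg (by linarith) hc.le
        · rw [le_div_iff₀ hc]
          have : ((f (C ++ [b]) - x) / c + 1) * c = f (C ++ [b]) - x + c := by field_simp
          rw [this]
          linarith
        · exfalso
          linarith
      · rw [if_neg (fun h => hxy h.2), add_zero]
        have e3 : Bd c x y (f C) = y / c + 1 := by
          unfold Bd
          rw [if_neg (not_lt.2 hx), if_neg hxy]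
        rw [e3]
        exact key _ (by positivity) fun b _ => Bd_le hc hy

/-- the word of an index -/
def wn (s : List ℕ) : List Lt := wd 1 (emb s)

theorem wn_nil : wn [] = [] := rfl

theorem wn_cons (a : ℕ) (s : List ℕ) : wn (a :: s) = List.replicate (a - 1) Lt.z ++ Lt.p :: wn s := by
  have h : wd 1 (emb (a :: s)) = List.replicate (a - 1) Lt.z ++ lt (1 * 1) :: wd (1 * 1) (emb s) := rfl
  unfold wn
  rw [h, mul_one]
  rfl

theorem wn_append (s t : List ℕ) : wn (s ++ t) = wn s ++ wn t := by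
  induction s with
  | nil => rfl
  | cons a s ih => rw [List.cons_append, wn_cons, wn_cons, ih]; simp

theorem wn_good (s : List ℕ) : Good (wn s) := wd_good _ _

theorem wn_ne {s : List ℕ} (hs : s ≠ []) : wn s ≠ [] := by
  cases s with
  | nil => exact absurd rfl hs
  | cons a s => rw [wn_cons]; simp

theorem cp_replicate (k : ℕ) : cp (List.replicate k Lt.z) = 0 := by
  induction k with
  | zero => rfl
  | succ k ih => rw [List.replicate_succ]; exact ih

theorem cz_replicate (k : ℕ) : cz (List.replicate k Lt.z) = k := by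
  induction k with
  | zero => rfl
  | succ k ih => rw [List.replicate_succ]; show cz (List.replicate k Lt.z) + 1 = k + 1; rw [ih]

theorem cp_wn (s : List ℕ) : cp (wn s) = s.length := by
  induction s with
  | nil => rfl
  | cons a s ih =>
    rw [wn_cons, cp_append, cp_replicate, List.length_cons]
    show 0 + (cp (wn s) + 1) = _
    rw [ih]; omega

theorem cz_wn {s : List ℕ} (hs : ∀ a ∈ s, 2 ≤ a) : s.length ≤ cz (wn s) := by
  induction s with
  | nil => exact le_rfl
  | cons a s ih =>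
    rw [wn_cons, cz_append, cz_replicate, List.length_cons]
    have h1 := ih fun b hb => hs b (by simp [hb])
    have h2 := hs a (by simp)
    show _ ≤ a - 1 + cz (wn s)
    omega

theorem wn_head {s : List ℕ} (hs : ∀ a ∈ s, 2 ≤ a) (hne : s ≠ []) : ∃ u, wn s = Lt.z :: u := by
  cases s with
  | nil => exact absurd rfl hne
  | cons a s =>
    have h2 := hs a (by simp)
    refine ⟨List.replicate (a - 2) Lt.z ++ Lt.p :: wn s, ?_⟩
    rw [wn_cons, show a - 1 = (a - 2) + 1 by omega, List.replicate_succ]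
    rfl

theorem wn_pos {s : List ℕ} (hs : ∀ a ∈ s, 2 ≤ a) (hne : s ≠ []) : 0 < V (wn s) := by
  obtain ⟨u, hu⟩ := wn_head hs hne
  have h := wn_good s
  rw [hu] at h ⊢
  exact V_pos (by simp) h

theorem mem_adm {s : List ℕ} (hs : ∀ a ∈ s, 2 ≤ a) (hne : s ≠ []) : s ∈ adm s.sum := by
  refine ⟨hne, fun a ha => (hs a ha).trans' (by norm_num), ?_, rfl⟩
  cases s with
  | nil => exact absurd rfl hne
  | cons a s =>
    rw [List.head?_cons]
    intro h
    have h1 := hs a (by simp)
    have h2 : a = 1 := Option.some.inj h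
    omega

theorem abs_mz_wn {s : List ℕ} (hs : ∀ a ∈ s, 2 ≤ a) (hne : s ≠ []) : |mz s| = V (wn s) := by
  rw [mz_emb, abs_val (emb_gens (mem_adm hs hne))]
  rfl

/-- many letters `z` before and many letters `p` behind: inserting a block divides the value by at least `t ^ 2` -/
theorem ins_zs {t : ℕ} (ht : 1 ≤ t) {u v : List Lt} (hv : Good v) (hne : v ≠ []) (hcp : t ≤ cp v) :
    ∀ k : ℕ, V (Lt.z :: u ++ (List.replicate k Lt.z ++ v)) ≤ V (Lt.z :: u ++ v) := by
  intro k
  induction k with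
  | zero => simp
  | succ k ih =>
    refine le_trans ?_ ih
    have hg : Good (List.replicate k Lt.z ++ v) := by
      exact good_app hv hne _
    have hn : List.replicate k Lt.z ++ v ≠ [] := by simp [hne]
    have h := Run7.h867.TW.insert_z hg hn u
    have h2 : 1 ≤ cp (List.replicate k Lt.z ++ v) := by
      rw [cp_append]; omega
    have h3 : 0 < V (Lt.z :: u ++ Lt.z :: (List.replicate k Lt.z ++ v)) :=
      V_pos (by simp) (good_app (good_app (v := List.replicate k Lt.z ++ v) hg hn [Lt.z]) (by simp) (Lt.z :: u))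
    have e : Lt.z :: u ++ (List.replicate (k + 1) Lt.z ++ v) =
        Lt.z :: u ++ Lt.z :: (List.replicate k Lt.z ++ v) := by
      rw [List.replicate_succ]; rfl
    rw [e]
    have h4 : (1 : ℝ) ≤ cp (List.replicate k Lt.z ++ v) := by exact_mod_cast h2
    nlinarith

theorem wn_insert {t : ℕ} (ht : 1 ≤ t) {A B : List ℕ} (hA : ∀ a ∈ A, 2 ≤ a) (hAl : t ≤ A.length)
    (hBl : t ≤ B.length) (C : List ℕ) (hC : ∀ a ∈ C, 2 ≤ a) {b : ℕ} (hb : 2 ≤ b) :
    (t : ℝ) ^ 2 * V (wn (A ++ (C ++ [b]) ++ B)) ≤ V (wn (A ++ C ++ B)) := by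
  have hAC : ∀ a ∈ A ++ C, 2 ≤ a := by
    intro a ha
    rcases List.mem_append.1 ha with h | h
    · exact hA a h
    · exact hC a h
  have hne : A ++ C ≠ [] := by
    intro h
    have := congrArg List.length h
    simp only [List.length_append, List.length_nil] at this
    omega
  have hBne : B ≠ [] := by
    rintro rfl
    simp only [List.length_nil] at hBl
    omega
  obtain ⟨u, hu⟩ := wn_head hAC hne
  have e1 : wn (A ++ C ++ B) = Lt.z :: u ++ wn B := by rw [wn_append, hu]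
  have e2 : wn (A ++ (C ++ [b]) ++ B) = Lt.z :: u ++ (List.replicate (b - 2) Lt.z ++ (Lt.z :: Lt.p :: wn B)) := by
    rw [show A ++ (C ++ [b]) ++ B = A ++ C ++ (b :: B) by simp, wn_append, hu, wn_cons,
      show b - 1 = (b - 2) + 1 by omega, List.replicate_succ']
    simp
  have hv : Good (wn B) := wn_good B
  have hvn : wn B ≠ [] := wn_ne hBne
  have hpv : Good (Lt.p :: wn B) := good_app hv hvn [Lt.p]
  have hzpv : Good (Lt.z :: Lt.p :: wn B) := good_app hpv (by simp) [Lt.z]
  have hcpB : cp (wn B) = B.length := cp_wn B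
  have hcp1 : cp (Lt.p :: wn B) = B.length + 1 := by
    show cp (wn B) + 1 = _
    rw [hcpB]
  have hcp2 : cp (Lt.z :: Lt.p :: wn B) = B.length + 1 := hcp1
  have hczA : t ≤ cz (Lt.z :: u) := by
    rw [← hu]
    have h1 := cz_wn hAC
    rw [List.length_append] at h1
    omega
  rw [e1, e2]
  have h1 := ins_zs (t := t) ht (u := u) hzpv (by simp) (by rw [hcp2]; omega) (b - 2)
  have h2 := Run7.h867.TW.insert_z hpv (by simp) u
  have h3 := Run7.h867.TW.insert_p hv hvn u
  rw [hcp1] at h2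
  have p1 : 0 < V (Lt.z :: u ++ Lt.z :: Lt.p :: wn B) := V_pos (by simp) (good_app hzpv (by simp) (Lt.z :: u))
  have p2 : 0 < V (Lt.z :: u ++ Lt.p :: wn B) := V_pos (by simp) (good_app hpv (by simp) (Lt.z :: u))
  have ht0 : (0 : ℝ) ≤ t := Nat.cast_nonneg t
  have c1 : (t : ℝ) ≤ ((B.length + 1 : ℕ) : ℝ) := by exact_mod_cast (by omega : t ≤ B.length + 1)
  have c2 : (t : ℝ) ≤ (cz (Lt.z :: u) : ℝ) := by exact_mod_cast hczA
  calc (t : ℝ) ^ 2 * V (Lt.z :: u ++ (List.replicate (b - 2) Lt.z ++ (Lt.z :: Lt.p :: wn B)))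
      ≤ (t : ℝ) ^ 2 * V (Lt.z :: u ++ Lt.z :: Lt.p :: wn B) := mul_le_mul_of_nonneg_left h1 (by positivity)
    _ = t * (t * V (Lt.z :: u ++ Lt.z :: Lt.p :: wn B)) := by ring
    _ ≤ t * (((B.length + 1 : ℕ) : ℝ) * V (Lt.z :: u ++ Lt.z :: Lt.p :: wn B)) :=
        mul_le_mul_of_nonneg_left (mul_le_mul_of_nonneg_right c1 p1.le) ht0
    _ ≤ t * V (Lt.z :: u ++ Lt.p :: wn B) := mul_le_mul_of_nonneg_left h2 ht0
    _ ≤ cz (Lt.z :: u) * V (Lt.z :: u ++ Lt.p :: wn B) := mul_le_mul_of_nonneg_right c2 p2.le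
    _ ≤ _ := h3

/-- the Kraft inequality for the values: words with the first part `A` and the last part `B` -/
theorem kraft_values {D : Finset ℕ} {p : ℕ → ℝ} (hp : ∀ a, 0 ≤ p a) (h1 : ∑ b ∈ D, p b ≤ 1) (hD : ∀ b ∈ D, 2 ≤ b)
    {t : ℕ} (ht : 2 ≤ t) {A B : List ℕ} (hA : ∀ a ∈ A, 2 ≤ a) (hB : ∀ a ∈ B, 2 ≤ a) (hAl : t ≤ A.length)
    (hBl : t ≤ B.length) (x y : ℝ) (hy : 0 ≤ y) (M : ℕ) :
    ∑ j ∈ range M, ∑ C ∈ wl D j, (if x ≤ Real.logb 2 (V (wn (A ++ C ++ B))) ∧
      Real.logb 2 (V (wn (A ++ C ++ B))) ≤ x + y then pr p C else 0) ≤ y / (2 * Real.logb 2 t) + 1 := by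
  classical
  have ht' : (1 : ℝ) < t := by exact_mod_cast (by omega : 1 < t)
  have hl : 0 < Real.logb 2 t := Real.logb_pos (by norm_num) ht'
  have hc : 0 < 2 * Real.logb 2 t := by positivity
  have h := kraft_words hp h1 (f := fun C => Real.logb 2 (V (wn (A ++ C ++ B)))) (x := x) hc hy (by
    intro C hC b hb
    have hC2 : ∀ a ∈ C, 2 ≤ a := fun a ha => hD a (hC a ha)
    have h2 := wn_insert (by omega : 1 ≤ t) hA hAl hBl C hC2 (hD b hb)
    have h3 : 0 < V (wn (A ++ (C ++ [b]) ++ B)) := by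
      refine wn_pos ?_ (by simp)
      intro a ha
      rcases List.mem_append.1 ha with ha | ha
      · rcases List.mem_append.1 ha with ha | ha
        · exact hA a ha
        · rcases List.mem_append.1 ha with ha | ha
          · exact hC2 a ha
          · rw [List.mem_singleton.1 ha]; exact hD b hb
      · exact hB a ha
    have ht2 : (0 : ℝ) < (t : ℝ) ^ 2 := by positivity
    have h4 := Real.logb_le_logb_of_le (b := 2) (by norm_num) (by positivity) h2
    rw [Real.logb_mul ht2.ne' h3.ne', Real.logb_pow] at h4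
    push_cast at h4
    show Real.logb 2 (V (wn (A ++ (C ++ [b]) ++ B))) + 2 * Real.logb 2 t ≤ Real.logb 2 (V (wn (A ++ C ++ B)))
    linarith) M [] (by simp)
  simp only [List.nil_append] at h
  exact h.trans (Run7.h867.TW.Bd_le hc hy)

/-- **the values of all words**: the sum over the words of at least `2 t` letters with `ζ(s)` in an interval -/
theorem all_words {D : Finset ℕ} {p : ℕ → ℝ} (hp : ∀ a, 0 ≤ p a) (h1 : ∑ b ∈ D, p b ≤ 1) (hD : ∀ b ∈ D, 2 ≤ b)
    {t : ℕ} (ht : 2 ≤ t) (x y : ℝ) (hy : 0 ≤ y) (M : ℕ) (T : List ℕ) (hT : ∀ b ∈ T, b ∈ D) :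
    ∑ j ∈ range M, ∑ s ∈ wl D (t + (j + t)), (if x ≤ Real.logb 2 (V (wn (s ++ T))) ∧
      Real.logb 2 (V (wn (s ++ T))) ≤ x + y then pr p s else 0) ≤ y / (2 * Real.logb 2 t) + 1 := by
  classical
  obtain ⟨b0, hb0⟩ : ∃ b0 : ℝ, b0 = y / (2 * Real.logb 2 t) + 1 := ⟨_, rfl⟩
  have hl : 0 ≤ Real.logb 2 t := Real.logb_nonneg (by norm_num) (by exact_mod_cast (by omega : 1 ≤ t))
  have hb : 0 ≤ b0 := by rw [hb0]; positivity
  rw [← hb0]
  have e : ∀ j ∈ range M, ∑ s ∈ wl D (t + (j + t)), (if x ≤ Real.logb 2 (V (wn (s ++ T))) ∧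
      Real.logb 2 (V (wn (s ++ T))) ≤ x + y then pr p s else 0) =
      ∑ A ∈ wl D t, ∑ B ∈ wl D t, pr p A * pr p B * ∑ C ∈ wl D j,
        (if x ≤ Real.logb 2 (V (wn (A ++ C ++ (B ++ T)))) ∧
      Real.logb 2 (V (wn (A ++ C ++ (B ++ T)))) ≤ x + y then pr p C else 0) := by
    intro j _
    rw [sum_wl_add]
    refine sum_congr rfl fun A _ => ?_
    rw [sum_wl_add, sum_comm]
    refine sum_congr rfl fun B _ => ?_
    rw [mul_sum]
    refine sum_congr rfl fun C _ => ?_
    have e2 : A ++ (C ++ B) ++ T = A ++ C ++ (B ++ T) := by simp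
    rw [e2, mul_ite, mul_zero, pr_append, pr_append]
    split_ifs <;> ring
  rw [sum_congr rfl e, sum_comm]
  calc ∑ A ∈ wl D t, ∑ j ∈ range M, ∑ B ∈ wl D t, pr p A * pr p B * ∑ C ∈ wl D j,
        (if x ≤ Real.logb 2 (V (wn (A ++ C ++ (B ++ T)))) ∧
      Real.logb 2 (V (wn (A ++ C ++ (B ++ T)))) ≤ x + y then pr p C else 0)
      ≤ ∑ A ∈ wl D t, ∑ B ∈ wl D t, pr p A * pr p B * b0 := by
        refine sum_le_sum fun A hA => ?_
        rw [sum_comm]
        refine sum_le_sum fun B hB => ?_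
        rw [← mul_sum]
        refine mul_le_mul_of_nonneg_left ?_ (mul_nonneg (pr_nonneg hp A) (pr_nonneg hp B))
        rw [mem_wl] at hA hB
        rw [hb0]
        refine kraft_values hp h1 hD ht (A := A) (B := B ++ T) (fun a ha => hD a (hA.1 a ha)) ?_ (by omega) ?_ x y hy M
        · intro a ha
          rcases List.mem_append.1 ha with ha | ha
          · exact hD a (hB.1 a ha)
          · exact hD a (hT a ha)
        · rw [List.length_append]; omega
    _ = (∑ A ∈ wl D t, pr p A) * (∑ B ∈ wl D t, pr p B) * b0 := by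
        rw [sum_mul, sum_mul]
        refine sum_congr rfl fun A _ => ?_
        rw [mul_sum, sum_mul]
    _ ≤ 1 * 1 * b0 := by
        refine mul_le_mul_of_nonneg_right ?_ hb
        exact mul_le_mul (sum_pr_le hp h1 t) (sum_pr_le hp h1 t) (sum_nonneg fun s _ => pr_nonneg hp s) zero_le_one
    _ = b0 := by ring

end Run7.h867.HW
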