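import Mathlib
import Pool.Agent.Run7.h867.HW.Tree

/-!
# The words in the letters 2 and 3 (helper867)
-/

set_option autoImplicit false

namespace Run7.h867.HW

open Finset Filter Topology Run7.h867.AM Run7.h867.MZ

def D23 : Finset ℕ := {2, 3}

theorem mem_D23 {a : ℕ} : a ∈ D23 ↔ a = 2 ∨ a = 3 := by unfold D23; rw [mem_insert, mem_singleton]

theorem two_le_D23 : ∀ b ∈ D23, 2 ≤ b := by
  intro b hb
  rw [mem_D23] at hb
  omega

/-- the words of weight `n` in the letters 2 and 3 -/
def hw : ℕ → Finset (List ℕ)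
  | 0 => {[]}
  | 1 => ∅
  | 2 => {[2]}
  | n + 3 => (hw (n + 1)).image (fun s => 2 :: s) ∪ (hw n).image fun s => 3 :: s

theorem mem_hw : ∀ {n : ℕ} {s : List ℕ}, s ∈ hw n ↔ (∀ a ∈ s, a ∈ D23) ∧ s.sum = n := by
  intro n
  induction n using Nat.strong_induction_on with
  | _ n ih =>
    intro s
    match n, ih with
    | 0, _ =>
      rw [hw, mem_singleton]
      constructor
      · rintro rfl; simp
      · rintro ⟨h1, h2⟩
        cases s with
        | nil => rfl
        | cons a s =>
          have := two_le_D23 a (h1 a (by simp))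
          rw [List.sum_cons] at h2
          omega
    | 1, _ =>
      rw [hw]
      constructor
      · intro h; exact absurd h (notMem_empty _)
      · rintro ⟨h1, h2⟩
        cases s with
        | nil => simp at h2
        | cons a s =>
          have := two_le_D23 a (h1 a (by simp))
          rw [List.sum_cons] at h2
          omega
    | 2, _ =>
      rw [hw, mem_singleton]
      constructor
      · rintro rfl
        simp [mem_D23]
      · rintro ⟨h1, h2⟩
        cases s with
        | nil => simp at h2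
        | cons a s =>
          have h3 := two_le_D23 a (h1 a (by simp))
          rw [List.sum_cons] at h2
          cases s with
          | nil =>
            simp only [List.sum_nil] at h2
            have h4 : a = 2 := by omega
            rw [h4]
          | cons b s =>
            have h4 := two_le_D23 b (h1 b (by simp))
            rw [List.sum_cons] at h2
            omega
    | n + 3, ih =>
      rw [hw, mem_union, mem_image, mem_image]
      constructor
      · rintro (⟨l, hl, rfl⟩ | ⟨l, hl, rfl⟩)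
        · obtain ⟨h1, h2⟩ := (ih (n + 1) (by omega)).1 hl
          refine ⟨?_, ?_⟩
          · intro a ha
            rcases List.mem_cons.1 ha with rfl | ha
            · simp [mem_D23]
            · exact h1 a ha
          · rw [List.sum_cons, h2]; omega
        · obtain ⟨h1, h2⟩ := (ih n (by omega)).1 hl
          refine ⟨?_, ?_⟩
          · intro a ha
            rcases List.mem_cons.1 ha with rfl | ha
            · simp [mem_D23]
            · exact h1 a ha
          · rw [List.sum_cons, h2]; omega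
      · rintro ⟨h1, h2⟩
        cases s with
        | nil => simp at h2
        | cons a s =>
          have h3 := mem_D23.1 (h1 a (by simp))
          rw [List.sum_cons] at h2
          rcases h3 with rfl | rfl
          · left
            exact ⟨s, (ih (n + 1) (by omega)).2 ⟨fun b hb => h1 b (by simp [hb]), by omega⟩, rfl⟩
          · right
            exact ⟨s, (ih n (by omega)).2 ⟨fun b hb => h1 b (by simp [hb]), by omega⟩, rfl⟩

theorem card_hw_succ (n : ℕ) : #(hw (n + 3)) = #(hw (n + 1)) + #(hw n) := by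
  rw [hw, card_union_of_disjoint, card_image_of_injective, card_image_of_injective]
  · intro a b h; simpa using h
  · intro a b h; simpa using h
  · rw [disjoint_left]
    intro s h1 h2
    obtain ⟨a, _, rfl⟩ := mem_image.1 h1
    obtain ⟨b, _, h3⟩ := mem_image.1 h2
    simp at h3

/-- the root of `x ^ 2 + x ^ 3 = 1` (the reciprocal of the plastic number) -/
theorem exists_root : ∃ x : ℝ, 3 / 4 < x ∧ x < 4 / 5 ∧ x ^ 2 + x ^ 3 = 1 := by
  have hc : ContinuousOn (fun x : ℝ => x ^ 2 + x ^ 3) (Set.Icc (3 / 4) (4 / 5)) := by fun_prop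
  have h := intermediate_value_Ioo (by norm_num : (3 / 4 : ℝ) ≤ 4 / 5) hc
  have h1 : (1 : ℝ) ∈ Set.Ioo ((3 / 4 : ℝ) ^ 2 + (3 / 4) ^ 3) ((4 / 5) ^ 2 + (4 / 5) ^ 3) := by
    constructor <;> norm_num
  obtain ⟨x, hx, hx1⟩ := h h1
  exact ⟨x, hx.1, hx.2, hx1⟩

noncomputable def rt : ℝ := exists_root.choose

theorem rt_gt : 3 / 4 < rt := exists_root.choose_spec.1

theorem rt_lt : rt < 4 / 5 := exists_root.choose_spec.2.1

theorem rt_eq : rt ^ 2 + rt ^ 3 = 1 := exists_root.choose_spec.2.2

theorem rt_pos : 0 < rt := by linarith [rt_gt]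

theorem hw_lower : ∀ n : ℕ, rt ^ 4 ≤ #(hw (n + 2)) * rt ^ (n + 2) := by
  intro n
  have h0 := rt_pos
  have h1 : rt ≤ 1 := by linarith [rt_lt]
  have e := rt_eq
  induction n using Nat.strong_induction_on with
  | _ n ih =>
    match n, ih with
    | 0, _ =>
      have : #(hw (0 + 2)) = 1 := by rfl
      rw [this, Nat.cast_one, one_mul]
      exact pow_le_pow_of_le_one h0.le h1 (by norm_num)
    | 1, _ =>
      have : #(hw (1 + 2)) = 1 := by rfl
      rw [this, Nat.cast_one, one_mul]
      exact pow_le_pow_of_le_one h0.le h1 (by norm_num)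
    | 2, _ =>
      have : #(hw (2 + 2)) = 1 := by rfl
      rw [this, Nat.cast_one, one_mul]
    | n + 3, ih =>
      have i1 := ih (n + 1) (by omega)
      have i2 := ih n (by omega)
      rw [show n + 3 + 2 = (n + 2) + 3 by ring, card_hw_succ]
      push_cast
      rw [show n + 1 + 2 = n + 2 + 1 by ring] at i1
      calc rt ^ 4 = rt ^ 2 * rt ^ 4 + rt ^ 3 * rt ^ 4 := by rw [← add_mul, e, one_mul]
        _ ≤ rt ^ 2 * (#(hw (n + 2 + 1)) * rt ^ (n + 2 + 1)) + rt ^ 3 * (#(hw (n + 2)) * rt ^ (n + 2)) := by gcongr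
        _ = _ := by ring

theorem hw_upper : ∀ n : ℕ, #(hw n) * rt ^ n ≤ 1 := by
  intro n
  have h0 := rt_pos
  have h1 : rt ≤ 1 := by linarith [rt_lt]
  have e := rt_eq
  induction n using Nat.strong_induction_on with
  | _ n ih =>
    match n, ih with
    | 0, _ => simp [hw]
    | 1, _ => simp [hw]
    | 2, _ =>
      have : #(hw 2) = 1 := by rfl
      rw [this, Nat.cast_one, one_mul]
      exact pow_le_one₀ h0.le h1
    | n + 3, ih =>
      have i1 := ih (n + 1) (by omega)
      have i2 := ih n (by omega)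
      rw [card_hw_succ]
      push_cast
      calc ((#(hw (n + 1)) : ℝ) + #(hw n)) * rt ^ (n + 3)
          = rt ^ 2 * (#(hw (n + 1)) * rt ^ (n + 1)) + rt ^ 3 * (#(hw n) * rt ^ n) := by ring
        _ ≤ rt ^ 2 * 1 + rt ^ 3 * 1 := by gcongr
        _ = 1 := by rw [mul_one, mul_one, e]

theorem pr_rt (s : List ℕ) : pr (fun a => rt ^ a) s = rt ^ s.sum := by
  induction s with
  | nil => simp [pr_nil]
  | cons a s ih => rw [pr_cons, ih, List.sum_cons, pow_add]

theorem sum_rt : ∑ b ∈ D23, rt ^ b ≤ 1 := by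
  unfold D23
  rw [sum_insert (by simp), sum_singleton]
  exact rt_eq.le

theorem len_hw {n : ℕ} {s : List ℕ} (h : s ∈ hw n) : n ≤ 3 * s.length ∧ 2 * s.length ≤ n := by
  rw [mem_hw] at h
  obtain ⟨h1, rfl⟩ := h
  induction s with
  | nil => simp
  | cons a s ih =>
    have h2 := ih fun b hb => h1 b (by simp [hb])
    have h3 := mem_D23.1 (h1 a (by simp))
    rw [List.sum_cons, List.length_cons]
    omega

/-- the sum over all words of all weights of a window -/
theorem window_hw {t w M : ℕ} (ht : 2 ≤ t) (h6 : 6 * t ≤ w) (T : List ℕ) (hT : ∀ b ∈ T, b ∈ D23) (x y : ℝ)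
    (hy : 0 ≤ y) :
    ∑ n ∈ Ico w (w + M), ∑ s ∈ hw n, (if x ≤ Real.logb 2 (V (wn (s ++ T))) ∧
      Real.logb 2 (V (wn (s ++ T))) ≤ x + y then rt ^ n else 0) ≤ y / (2 * Real.logb 2 t) + 1 := by
  classical
  refine le_trans ?_ (all_words (p := fun a => rt ^ a) (fun a => pow_nonneg rt_pos.le a) sum_rt two_le_D23 ht x y hy
    (w + M) T hT)
  obtain ⟨g, hg⟩ : ∃ g : List ℕ → ℝ, g = fun s => if x ≤ Real.logb 2 (V (wn (s ++ T))) ∧
      Real.logb 2 (V (wn (s ++ T))) ≤ x + y then pr (fun a => rt ^ a) s else 0 := ⟨_, rfl⟩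
  have hg0 : ∀ s, 0 ≤ g s := by
    intro s
    rw [hg]
    simp only
    split_ifs
    · exact pr_nonneg (fun a => pow_nonneg rt_pos.le a) s
    · exact le_rfl
  have e1 : ∀ n ∈ Ico w (w + M), ∑ s ∈ hw n, (if x ≤ Real.logb 2 (V (wn (s ++ T))) ∧
      Real.logb 2 (V (wn (s ++ T))) ≤ x + y then rt ^ n else 0) = ∑ s ∈ hw n, g s := by
    intro n _
    refine sum_congr rfl fun s hs => ?_
    rw [hg]
    simp only
    rw [pr_rt, (mem_hw.1 hs).2]
  have e2 : ∀ j ∈ range (w + M), ∑ s ∈ wl D23 (t + (j + t)), (if x ≤ Real.logb 2 (V (wn (s ++ T))) ∧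
      Real.logb 2 (V (wn (s ++ T))) ≤ x + y then pr (fun a => rt ^ a) s else 0) =
      ∑ s ∈ wl D23 (t + (j + t)), g s := by
    intro j _
    rw [hg]
  rw [sum_congr rfl e1, sum_congr rfl e2, ← sum_biUnion, ← sum_biUnion]
  · refine sum_le_sum_of_subset_of_nonneg ?_ fun s _ _ => hg0 s
    intro s hs
    rw [mem_biUnion] at hs ⊢
    obtain ⟨n, hn, hs⟩ := hs
    rw [mem_Ico] at hn
    have h1 := len_hw hs
    refine ⟨s.length - 2 * t, mem_range.2 (by omega), ?_⟩
    rw [mem_wl]
    exact ⟨(mem_hw.1 hs).1, by omega⟩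
  · intro j _ j' _ hne
    rw [Function.onFun, disjoint_left]
    intro s h1 h2
    rw [mem_wl] at h1 h2
    omega
  · intro n _ n' _ hne
    rw [Function.onFun, disjoint_left]
    intro s h1 h2
    exact hne ((mem_hw.1 h1).2.symm.trans (mem_hw.1 h2).2)

end Run7.h867.HW
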