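import Mathlib
import Pool.Agent.Run7.h867.HW.Hoff

/-!
# Lyndon words in the letters 2 and 3 (helper867)
-/

set_option autoImplicit false

namespace Run7.h867.HW

open Finset Filter Topology

/-- Lyndon words for the relation `r` on the letters: smaller than all proper suffixes -/
def IsLyn (r : ℕ → ℕ → Prop) (w : List ℕ) : Prop :=
  w ≠ [] ∧ ∀ x v : List ℕ, x ≠ [] → v ≠ [] → x ++ v = w → List.Lex r w v

theorem lex_run {r : ℕ → ℕ → Prop} {a b : ℕ} (hab : r a b) (v : List ℕ) : ∀ (j l : ℕ) (t : List ℕ), j < l →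
    List.Lex r (List.replicate l a ++ t) (List.replicate j a ++ b :: v) := by
  intro j
  induction j with
  | zero =>
    intro l t hl
    obtain ⟨l', rfl⟩ : ∃ l', l = l' + 1 := ⟨l - 1, by omega⟩
    rw [List.replicate_succ]
    exact List.Lex.rel hab
  | succ j ih =>
    intro l t hl
    obtain ⟨l', rfl⟩ : ∃ l', l = l' + 1 := ⟨l - 1, by omega⟩
    rw [List.replicate_succ, List.replicate_succ]
    exact List.Lex.cons (ih l' t (by omega))

/-- a word in two letters ending in `b` is `a ... a b v` -/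
theorem split_run {a b : ℕ} : ∀ {v : List ℕ}, (∀ c ∈ v, c = a ∨ c = b) → (∃ y, v = y ++ [b]) →
    ∃ (j : ℕ) (v' : List ℕ), v = List.replicate j a ++ b :: v' := by
  intro v
  induction v with
  | nil => rintro _ ⟨y, hy⟩; simp at hy
  | cons c v ih =>
    rintro hv ⟨y, hy⟩
    rcases hv c (by simp) with rfl | rfl
    · cases y with
      | nil =>
        simp only [List.nil_append, List.cons.injEq] at hy
        obtain ⟨rfl, rfl⟩ := hy
        exact ⟨0, [], by simp⟩
      | cons d y =>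
        simp only [List.cons_append, List.cons.injEq] at hy
        obtain ⟨j, v', h⟩ := ih (fun x hx => hv x (by simp [hx])) ⟨y, hy.2⟩
        exact ⟨j + 1, v', by rw [List.replicate_succ, List.cons_append, ← h]⟩
    · exact ⟨0, v, by simp⟩

/-- `a ^ l t` is a Lyndon word if `t` begins and ends with `b` and does not contain `a ^ l` -/
theorem lyn_family {r : ℕ → ℕ → Prop} {a b : ℕ} (hab : r a b) {l : ℕ} {t : List ℕ}
    (ht : ∀ c ∈ t, c = a ∨ c = b) (hb : ∃ t', t = b :: t') (he : ∃ y, t = y ++ [b])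
    (hav : ∀ x v, x ++ v = t → ¬ ∃ y, v = List.replicate l a ++ y) :
    IsLyn r (List.replicate l a ++ t) := by
  obtain ⟨t', ht'⟩ := hb
  refine ⟨by rw [ht']; simp, ?_⟩
  intro x v hx hv h
  rw [List.append_eq_append_iff] at h
  rcases h with ⟨c, h1, h2⟩ | ⟨c, h1, h2⟩
  · -- `replicate l a = x ++ c`, `v = c ++ t`
    have hc : c = List.replicate c.length a := by
      rw [List.eq_replicate_iff]
      refine ⟨rfl, fun d hd => ?_⟩
      have : d ∈ List.replicate l a := by rw [h1]; simp [hd]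
      exact List.eq_of_mem_replicate this
    have hlen : c.length < l := by
      have h3 := congrArg List.length h1
      rw [List.length_replicate, List.length_append] at h3
      have h4 : 0 < x.length := List.length_pos_iff.2 hx
      omega
    rw [h2, hc, ht']
    exact lex_run hab t' c.length l (b :: t') hlen
  · -- `x = replicate l a ++ c`, `t = c ++ v`
    have hv2 : ∃ y, v = y ++ [b] := by
      obtain ⟨y, hy⟩ := he
      have h3 : c ++ v = y ++ [b] := by rw [← h2, hy]
      rcases List.eq_nil_or_concat v with rfl | ⟨v', d, rfl⟩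
      · exact absurd rfl hv
      · rw [List.concat_eq_append, ← List.append_assoc] at h3
        have h4 := List.append_inj_right' h3 rfl
        exact ⟨v', by rw [List.concat_eq_append, h4]⟩
    have hvl : ∀ d ∈ v, d = a ∨ d = b := fun d hd => ht d (by rw [h2]; simp [hd])
    obtain ⟨j, v', hj⟩ := split_run hvl hv2
    rw [hj]
    refine lex_run hab v' j l t ?_
    by_contra hjl
    rw [not_lt] at hjl
    refine hav c v h2.symm ⟨List.replicate (j - l) a ++ b :: v', ?_⟩
    rw [← List.append_assoc, ← List.replicate_add, hj]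
    congr 2
    omega

open Classical in
/-- the Lyndon words of weight `n` in the letters 2 and 3 -/
noncomputable def lw (r : ℕ → ℕ → Prop) (n : ℕ) : Finset (List ℕ) := (hw n).filter fun w => IsLyn r w

theorem hw_real_upper (n : ℕ) : (#(hw n) : ℝ) ≤ (rt ^ n)⁻¹ := by
  have h := hw_upper n
  have h0 : 0 < rt ^ n := pow_pos rt_pos n
  rw [← one_div, le_div_iff₀ h0]
  exact h

open Classical in
/-- the words of weight `m` with a factor `a ^ l` -/
theorem bad_count {a l m : ℕ} (ha : a ∈ D23) (hm : a * l ≤ m) :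
    (#((hw m).filter fun t => ∃ x y, t = x ++ (List.replicate l a ++ y)) : ℝ) ≤ (m + 1) * (rt ^ (m - a * l))⁻¹ := by
  have h1 : (hw m).filter (fun t => ∃ x y, t = x ++ (List.replicate l a ++ y)) ⊆
      (antidiagonal (m - a * l)).biUnion fun ij => ((hw ij.1) ×ˢ (hw ij.2)).image
        fun xy => xy.1 ++ (List.replicate l a ++ xy.2) := by
    intro t ht
    rw [mem_filter] at ht
    obtain ⟨h2, x, y, rfl⟩ := ht
    obtain ⟨h3, h4⟩ := mem_hw.1 h2
    rw [List.sum_append, List.sum_append, List.sum_replicate, smul_eq_mul] at h4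
    rw [mem_biUnion]
    refine ⟨(x.sum, y.sum), ?_, ?_⟩
    · rw [HasAntidiagonal.mem_antidiagonal]
      simp only
      rw [mul_comm] at h4
      omega
    · rw [mem_image]
      refine ⟨(x, y), ?_, rfl⟩
      rw [mem_product]
      exact ⟨mem_hw.2 ⟨fun c hc => h3 c (by simp [hc]), rfl⟩, mem_hw.2 ⟨fun c hc => h3 c (by simp [hc]), rfl⟩⟩
  calc (#((hw m).filter fun t => ∃ x y, t = x ++ (List.replicate l a ++ y)) : ℝ)
      ≤ #((antidiagonal (m - a * l)).biUnion fun ij => ((hw ij.1) ×ˢ (hw ij.2)).image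
        fun xy => xy.1 ++ (List.replicate l a ++ xy.2)) := by exact_mod_cast card_le_card h1
    _ ≤ ∑ ij ∈ antidiagonal (m - a * l), (#(hw ij.1) * #(hw ij.2) : ℝ) := by
        refine le_trans (Nat.cast_le.2 card_biUnion_le) ?_
        push_cast
        refine sum_le_sum fun ij _ => ?_
        have h5 : #(((hw ij.1) ×ˢ (hw ij.2)).image fun xy => xy.1 ++ (List.replicate l a ++ xy.2)) ≤
            #(hw ij.1) * #(hw ij.2) := by
          refine card_image_le.trans (le_of_eq ?_)
          rw [card_product]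
        exact_mod_cast h5
    _ ≤ ∑ ij ∈ antidiagonal (m - a * l), (rt ^ (m - a * l))⁻¹ := by
        refine sum_le_sum fun ij hij => ?_
        rw [HasAntidiagonal.mem_antidiagonal] at hij
        rw [← hij, pow_add, mul_inv]
        have h0 : 0 < rt ^ ij.1 := pow_pos rt_pos _
        have h0' : 0 < rt ^ ij.2 := pow_pos rt_pos _
        exact mul_le_mul (hw_real_upper _) (hw_real_upper _) (Nat.cast_nonneg _) (by positivity)
    _ = ((m - a * l : ℕ) + 1 : ℝ) * (rt ^ (m - a * l))⁻¹ := by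
        rw [sum_const, Nat.card_antidiagonal, nsmul_eq_mul]
        push_cast
        rfl
    _ ≤ (m + 1) * (rt ^ (m - a * l))⁻¹ := by
        have h0 : 0 < rt ^ (m - a * l) := pow_pos rt_pos _
        refine mul_le_mul_of_nonneg_right ?_ (by positivity)
        have : ((m - a * l : ℕ) : ℝ) ≤ m := by exact_mod_cast Nat.sub_le _ _
        linarith

open Classical in
/-- the number of the Lyndon words of weight `n` -/
theorem lw_count {r : ℕ → ℕ → Prop} {a b l n : ℕ} (hab : r a b) (ha : a ∈ D23) (hb : b ∈ D23) (hne : a ≠ b)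
    (hn : a * l + (2 * b + 2) ≤ n) (hl : rt ^ (a * l) * (2 * (n + 1)) ≤ rt ^ (2 * b + 4)) :
    (rt ^ (n - a * l - 2 * b))⁻¹ * (rt ^ 4 / 2) ≤ #(lw r n) := by
  have hlet : ∀ c, c ∈ D23 → c = a ∨ c = b := by
    intro c hc
    rw [mem_D23] at ha hb hc
    omega
  obtain ⟨m, hm⟩ : ∃ m, m = n - a * l := ⟨_, rfl⟩
  obtain ⟨φ, hφ⟩ : ∃ φ : List ℕ → List ℕ, φ = fun u => b :: (u ++ [b]) := ⟨_, rfl⟩
  have hφi : Function.Injective φ := by
    intro u u' h
    rw [hφ] at h
    simpa using h
  obtain ⟨T, hT⟩ : ∃ T, T = (hw (m - 2 * b)).image φ := ⟨_, rfl⟩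
  have hTc : #T = #(hw (m - 2 * b)) := by rw [hT, card_image_of_injective _ hφi]
  have hTm : ∀ t ∈ T, t ∈ hw m := by
    intro t ht
    rw [hT, mem_image] at ht
    obtain ⟨u, hu, rfl⟩ := ht
    obtain ⟨h1, h2⟩ := mem_hw.1 hu
    rw [mem_hw, hφ]
    refine ⟨?_, ?_⟩
    · intro c hc
      simp only [List.mem_cons, List.mem_append, List.not_mem_nil, or_false] at hc
      rcases hc with rfl | hc | rfl
      · exact hb
      · exact h1 c hc
      · exact hb
    · simp only [List.sum_cons, List.sum_append, List.sum_nil]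
      omega
  obtain ⟨Bd, hBd⟩ : ∃ Bd, Bd = (hw m).filter fun t => ∃ x y, t = x ++ (List.replicate l a ++ y) := ⟨_, rfl⟩
  have hgood : #(T \ Bd) ≤ #(lw r n) := by
    refine card_le_card_of_injOn (fun t => List.replicate l a ++ t) ?_ ?_
    · intro t ht
      rw [mem_coe, Finset.mem_sdiff] at ht
      obtain ⟨ht1, ht2⟩ := ht
      have ht3 := hTm t ht1
      obtain ⟨h1, h2⟩ := mem_hw.1 ht3
      rw [mem_coe, lw, mem_filter, mem_hw]
      refine ⟨⟨?_, ?_⟩, ?_⟩
      · intro c hc
        rcases List.mem_append.1 hc with hc | hc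
        · rw [List.eq_of_mem_replicate hc]; exact ha
        · exact h1 c hc
      · rw [List.sum_append, List.sum_replicate, smul_eq_mul, h2, mul_comm]
        omega
      · rw [hT, mem_image] at ht1
        obtain ⟨u, hu, rfl⟩ := ht1
        refine lyn_family hab (fun c hc => hlet c (h1 c hc)) ⟨u ++ [b], by rw [hφ]⟩ ⟨b :: u, by rw [hφ]; simp⟩ ?_
        rintro x v hxv ⟨y, rfl⟩
        apply ht2
        rw [hBd, mem_filter]
        exact ⟨ht3, x, y, hxv.symm⟩
    · intro t _ t' _ h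
      simpa using h
  have hlow := hw_lower (m - 2 * b - 2)
  rw [show m - 2 * b - 2 + 2 = m - 2 * b by omega] at hlow
  have hbad : (#Bd : ℝ) ≤ (rt ^ (m - 2 * b))⁻¹ * (rt ^ 4 / 2) := by
    by_cases hml : a * l ≤ m
    · have h1 := bad_count (l := l) (m := m) ha hml
      rw [hBd]
      refine h1.trans ?_
      have p1 : 0 < rt ^ (m - a * l) := pow_pos rt_pos _
      have p2 : 0 < rt ^ (m - 2 * b) := pow_pos rt_pos _
      have e1 : rt ^ m = rt ^ (m - a * l) * rt ^ (a * l) := by rw [← pow_add]; congr 1; omega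
      have e2 : rt ^ m = rt ^ (m - 2 * b) * rt ^ (2 * b) := by rw [← pow_add]; congr 1; omega
      have p3 : 0 < rt ^ (a * l) := pow_pos rt_pos _
      have p4 : 0 < rt ^ (2 * b) := pow_pos rt_pos _
      have e3 : (rt ^ (m - a * l))⁻¹ = rt ^ (a * l) / rt ^ m := by rw [e1]; field_simp
      have e4 : (rt ^ (m - 2 * b))⁻¹ = rt ^ (2 * b) / rt ^ m := by rw [e2]; field_simp
      have p5 : 0 < rt ^ m := pow_pos rt_pos _
      rw [e3, e4, mul_div_assoc', div_mul_eq_mul_div, div_le_div_iff_of_pos_right p5]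
      have hmn : (m : ℝ) ≤ n := by exact_mod_cast (by omega : m ≤ n)
      have e5 : rt ^ (2 * b + 4) = rt ^ (2 * b) * rt ^ 4 := pow_add _ _ _
      rw [e5] at hl
      nlinarith
    · have h0 : Bd = ∅ := by
        rw [hBd, filter_eq_empty_iff]
        rintro t ht ⟨x, y, rfl⟩
        obtain ⟨_, h2⟩ := mem_hw.1 ht
        rw [List.sum_append, List.sum_append, List.sum_replicate, smul_eq_mul, mul_comm] at h2
        omega
      rw [h0, card_empty, Nat.cast_zero]
      have p2 : 0 < rt ^ (m - 2 * b) := pow_pos rt_pos _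
      have := rt_pos
      positivity
  have h5 : (#T : ℝ) ≤ #(T \ Bd) + #Bd := by
    have := card_sdiff_add_card T Bd
    have h6 : #T ≤ #(T \ Bd) + #Bd := by
      rw [this]
      exact card_le_card subset_union_left
    exact_mod_cast h6
  have h6 : rt ^ 4 * (rt ^ (m - 2 * b))⁻¹ ≤ #T := by
    rw [hTc]
    have p2 : 0 < rt ^ (m - 2 * b) := pow_pos rt_pos _
    rw [← div_eq_mul_inv, div_le_iff₀ p2]
    exact hlow
  have h7 : (#(T \ Bd) : ℝ) ≤ #(lw r n) := by exact_mod_cast hgood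
  rw [hm] at *
  linarith

/-- **the number of the Lyndon words is at least of the order of the number of the words divided by the weight** -/
theorem lw_lower {r : ℕ → ℕ → Prop} {a b : ℕ} (hab : r a b) (ha : a ∈ D23) (hb : b ∈ D23) (hne : a ≠ b) :
    ∃ n₀ : ℕ, ∀ n, n₀ ≤ n → (#(hw n) : ℝ) ≤ 10000 * n * #(lw r n) := by
  classical
  have h0 := rt_pos
  have h1 : rt < 1 := by linarith [rt_lt]
  have h34 := rt_gt
  have ha' := mem_D23.1 ha
  have hb' := mem_D23.1 hb
  have ha2 : 2 ≤ a := two_le_D23 a ha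
  have hlim : Tendsto (fun n : ℕ => (n : ℝ) * rt ^ n) atTop (𝓝 0) := tendsto_self_mul_const_pow_of_lt_one h0.le h1
  have hev := (hlim.eventually (gt_mem_nhds (show (0 : ℝ) < rt ^ 20 / 4 by positivity)))
  obtain ⟨n₁, hn₁⟩ := eventually_atTop.1 hev
  refine ⟨n₁ + 20, fun n hn => ?_⟩
  have hn1 := hn₁ n (by omega)
  have hnr : (1 : ℝ) ≤ n := by exact_mod_cast (by omega : 1 ≤ n)
  have hex : ∃ l : ℕ, rt ^ (a * l) * (2 * ((n : ℝ) + 1)) ≤ rt ^ (2 * b + 4) := by
    have h2 : Tendsto (fun l : ℕ => (rt ^ a) ^ l * (2 * ((n : ℝ) + 1))) atTop (𝓝 (0 * (2 * ((n : ℝ) + 1)))) := by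
      refine Tendsto.mul_const _ (tendsto_pow_atTop_nhds_zero_of_lt_one (by positivity) ?_)
      exact pow_lt_one₀ h0.le h1 (by omega)
    rw [zero_mul] at h2
    have h3 := h2.eventually (gt_mem_nhds (show (0 : ℝ) < rt ^ (2 * b + 4) by positivity))
    obtain ⟨l, hl⟩ := h3.exists
    exact ⟨l, by rw [pow_mul]; exact hl.le⟩
  obtain ⟨l, hl⟩ : ∃ l, l = Nat.find hex := ⟨_, rfl⟩
  have hl1 : rt ^ (a * l) * (2 * ((n : ℝ) + 1)) ≤ rt ^ (2 * b + 4) := by rw [hl]; exact Nat.find_spec hex
  have hl0 : 1 ≤ l := by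
    by_contra h
    have h2 : l = 0 := by omega
    rw [h2, mul_zero, pow_zero, one_mul] at hl1
    have h3 : rt ^ (2 * b + 4) ≤ 1 := pow_le_one₀ h0.le h1.le
    linarith
  have hl2 : rt ^ (2 * b + 4) < rt ^ (a * (l - 1)) * (2 * ((n : ℝ) + 1)) := by
    have := Nat.find_min hex (m := l - 1) (by omega)
    exact not_le.1 this
  have hln : a * l + (2 * b + 2) ≤ n := by
    by_contra hcon
    rw [not_le] at hcon
    have h2 : n - 10 ≤ a * (l - 1) := by
      rw [Nat.mul_sub, mul_one]
      omega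
    have h3 : rt ^ (a * (l - 1)) ≤ rt ^ (n - 10) := pow_le_pow_of_le_one h0.le h1.le h2
    have h4 : rt ^ n = rt ^ (n - 10) * rt ^ 10 := by rw [← pow_add]; congr 1; omega
    have h5 : rt ^ 10 ≤ rt ^ (2 * b + 4) := pow_le_pow_of_le_one h0.le h1.le (by omega)
    have h6 : rt ^ 10 < rt ^ (n - 10) * (2 * ((n : ℝ) + 1)) := by
      calc rt ^ 10 ≤ rt ^ (2 * b + 4) := h5
        _ < rt ^ (a * (l - 1)) * (2 * ((n : ℝ) + 1)) := hl2
        _ ≤ _ := mul_le_mul_of_nonneg_right h3 (by positivity)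
    have h7 : rt ^ 20 < n * rt ^ n * 4 := by
      have e1 : rt ^ 20 = rt ^ 10 * rt ^ 10 := by ring
      have p10 : 0 < rt ^ 10 := by positivity
      have p11 : 0 < rt ^ (n - 10) := by positivity
      rw [e1, h4]
      calc rt ^ 10 * rt ^ 10 < rt ^ (n - 10) * (2 * ((n : ℝ) + 1)) * rt ^ 10 := mul_lt_mul_of_pos_right h6 p10
        _ ≤ rt ^ (n - 10) * (4 * n) * rt ^ 10 := by
            refine mul_le_mul_of_nonneg_right (mul_le_mul_of_nonneg_left ?_ p11.le) p10.le
            linarith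
        _ = _ := by ring
    linarith
  have hc := lw_count hab ha hb hne hln hl1
  have pn : 0 < rt ^ n := by positivity
  have e1 : (rt ^ (n - a * l - 2 * b))⁻¹ = rt ^ (a * l) * rt ^ (2 * b) / rt ^ n := by
    have : rt ^ n = rt ^ (n - a * l - 2 * b) * (rt ^ (a * l) * rt ^ (2 * b)) := by
      rw [← pow_add, ← pow_add]; congr 1; omega
    rw [this]
    have p1 : 0 < rt ^ (n - a * l - 2 * b) := by positivity
    have p2 : 0 < rt ^ (a * l) * rt ^ (2 * b) := by positivity
    field_simp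
  have e2 : rt ^ (a * l) = rt ^ (a * (l - 1)) * rt ^ a := by
    rw [← pow_add]; congr 1
    rw [Nat.mul_sub, mul_one]
    have : a ≤ a * l := Nat.le_mul_of_pos_right a (by omega)
    omega
  have e3 : rt ^ 22 ≤ rt ^ (2 * b + 4) * rt ^ a * rt ^ (2 * b) * rt ^ 4 := by
    rw [← pow_add, ← pow_add, ← pow_add]
    exact pow_le_pow_of_le_one h0.le h1.le (by omega)
  have e4 : (1 : ℝ) / 600 ≤ rt ^ 22 := by
    calc (1 : ℝ) / 600 ≤ (3 / 4) ^ 22 := by norm_num
      _ ≤ rt ^ 22 := by gcongr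
  have e5 := hw_real_upper n
  -- combine
  have e6 : 1 / 600 ≤ rt ^ (a * l) * rt ^ (2 * b) * rt ^ 4 * (4 * n) := by
    have p1 : 0 < rt ^ a := by positivity
    have p2 : 0 < rt ^ (2 * b) := by positivity
    have p3 : 0 < rt ^ 4 := by positivity
    have p4 : 0 < rt ^ (a * (l - 1)) := by positivity
    calc (1 : ℝ) / 600 ≤ rt ^ (2 * b + 4) * rt ^ a * rt ^ (2 * b) * rt ^ 4 := e4.trans e3
      _ ≤ (rt ^ (a * (l - 1)) * (4 * n)) * rt ^ a * rt ^ (2 * b) * rt ^ 4 := by
          refine mul_le_mul_of_nonneg_right (mul_le_mul_of_nonneg_right (mul_le_mul_of_nonneg_right ?_ p1.le) p2.le) p3.le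
          refine hl2.le.trans (mul_le_mul_of_nonneg_left ?_ p4.le)
          linarith
      _ = _ := by rw [e2]; ring
  rw [e1] at hc
  have e7 : (rt ^ n)⁻¹ ≤ 10000 * n * (rt ^ (a * l) * rt ^ (2 * b) / rt ^ n * (rt ^ 4 / 2)) := by
    have : 10000 * n * (rt ^ (a * l) * rt ^ (2 * b) / rt ^ n * (rt ^ 4 / 2)) =
        (rt ^ (a * l) * rt ^ (2 * b) * rt ^ 4 * (4 * n)) * 1250 * (rt ^ n)⁻¹ := by
      field_simp
      ring
    rw [this]
    have p5 : 0 < (rt ^ n)⁻¹ := by positivity
    calc (rt ^ n)⁻¹ = 1 * (rt ^ n)⁻¹ := (one_mul _).symm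
      _ ≤ _ := by
          refine mul_le_mul_of_nonneg_right ?_ p5.le
          linarith
  refine e5.trans (e7.trans ?_)
  exact mul_le_mul_of_nonneg_left hc (by positivity)

end Run7.h867.HW
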