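import Mathlib
import Pool.Agent.Run7.h867.TW.Weighted
import Pool.Agent.Run7.h867.HW.Lyn

/-!
# Averages over tuples of weights, and sums over words between two given words (helper867)
-/

set_option autoImplicit false

namespace Run7.h867.HW

open Finset Filter Topology Run7.h867.AM Run7.h867.MZ

open Classical in
/-- the average over the tuples of weights of a window of the proportion of the bad tuples -/
theorem window_general {N : ℕ} (L : ℕ → Finset (List ℕ)) (hsum : ∀ n, ∀ s ∈ L n, s.sum = n) (val : List ℕ → ℝ)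
    (w M : ℕ) (hval : ∀ n ∈ Ico w (w + M), ∀ s ∈ L n, val s ≠ 0) (hpos : ∀ n ∈ Ico w (w + M), 0 < #(L n))
    (κ : ℝ) (hκ0 : 0 ≤ κ) (S : Finset (Fin N →₀ ℕ)) (H : ℕ) (hH : 1 ≤ H) (hS : S.Nonempty)
    (hA : ∀ x : ℝ, ∑ n ∈ Ico w (w + M), (#((L n).filter fun l => x ≤ Real.logb 2 |val l| ∧
      Real.logb 2 |val l| ≤ x + 2 * Real.logb 2 (#S * H)) : ℝ) / #(L n) ≤ κ * M) :
    ∑ W ∈ Fintype.piFinset fun _ : Fin N => Ico w (w + M),
      (#((Fintype.piFinset fun i => L (W i)).filter fun u => Run7.h867.GT.Bad S H fun i => val (u i)) : ℝ) /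
        ∏ i, (#(L (W i)) : ℝ) ≤ ((#S).choose 2 : ℝ) * κ * (M : ℝ) ^ N := by
  obtain ⟨G, hG⟩ : ∃ G : Finset (List ℕ), G = (Ico w (w + M)).biUnion L := ⟨_, rfl⟩
  obtain ⟨μ, hμ⟩ : ∃ μ : List ℕ → ℝ, μ = fun s => 1 / (#(L s.sum) : ℝ) := ⟨_, rfl⟩
  have hμ0 : ∀ l, 0 ≤ μ l := fun l => by rw [hμ]; positivity
  have hdisj : ∀ p : List ℕ → Prop, [DecidablePred p] → ∑ s ∈ G.filter p, μ s =
      ∑ n ∈ Ico w (w + M), (#((L n).filter p) : ℝ) / #(L n) := by
    intro p _
    rw [hG, filter_biUnion, sum_biUnion]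
    · refine sum_congr rfl fun n _ => ?_
      have h2 : ∀ s ∈ (L n).filter p, μ s = 1 / (#(L n) : ℝ) := by
        intro s hs
        rw [mem_filter] at hs
        rw [hμ]
        simp only
        rw [hsum _ s hs.1]
      rw [sum_congr rfl h2, sum_const, nsmul_eq_mul]
      ring
    · intro j _ j' _ hjj
      rw [Function.onFun, disjoint_left]
      intro s hs hs'
      rw [mem_filter] at hs hs'
      exact hjj ((hsum _ s hs.1).symm.trans (hsum _ s hs'.1))
  have htot : ∑ s ∈ G, μ s = M := by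
    have h5 := hdisj (fun _ => True)
    simp only [filter_true] at h5
    rw [h5]
    have h6 : ∀ n ∈ Ico w (w + M), (#(L n) : ℝ) / #(L n) = 1 := by
      intro n hn
      exact div_self (by exact_mod_cast (hpos n hn).ne')
    rw [sum_congr rfl h6]
    simp
  have hmain := Run7.h867.GT.main_w (fun _ : Fin N => G) μ hμ0 val (fun i l hl => by
      rw [hG, mem_biUnion] at hl
      obtain ⟨n, hn, hl⟩ := hl
      exact hval n hn l hl) κ hκ0 S H hH hS (fun i x => by
      rw [htot]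
      have h7 := hdisj (fun l => x ≤ Real.logb 2 |val l| ∧ Real.logb 2 |val l| ≤ x + 2 * Real.logb 2 (#S * H))
      rw [h7]
      exact hA x)
  calc _ ≤ ∑ W ∈ Fintype.piFinset fun _ : Fin N => Ico w (w + M),
        ∑ u ∈ (Fintype.piFinset fun i => L (W i)).filter fun u =>
          Run7.h867.GT.Bad S H fun i => val (u i), ∏ i, μ (u i) := by
        refine sum_le_sum fun W _ => ?_
        have h2 : ∀ u ∈ (Fintype.piFinset fun i => L (W i)).filter fun u =>
            Run7.h867.GT.Bad S H fun i => val (u i), ∏ i, μ (u i) = 1 / ∏ i, (#(L (W i)) : ℝ) := by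
          intro u hu
          rw [mem_filter, Fintype.mem_piFinset] at hu
          rw [hμ, one_div, ← prod_inv_distrib]
          refine prod_congr rfl fun i _ => ?_
          simp only
          rw [hsum _ _ (hu.1 i), one_div]
        rw [sum_congr rfl h2, sum_const, nsmul_eq_mul, mul_one_div]
    _ = ∑ u ∈ (Fintype.piFinset fun _ : Fin N => Ico w (w + M)).biUnion fun W =>
        (Fintype.piFinset fun i => L (W i)).filter fun u =>
          Run7.h867.GT.Bad S H fun i => val (u i), ∏ i, μ (u i) := by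
        rw [sum_biUnion]
        intro W _ W' _ hne
        rw [Function.onFun, disjoint_left]
        intro u hu hu'
        apply hne
        rw [mem_filter, Fintype.mem_piFinset] at hu hu'
        funext i
        exact (hsum _ _ (hu.1 i)).symm.trans (hsum _ _ (hu'.1 i))
    _ ≤ ∑ u ∈ (Fintype.piFinset fun _ : Fin N => G).filter fun u =>
          Run7.h867.GT.Bad S H fun i => val (u i), ∏ i, μ (u i) := by
        refine sum_le_sum_of_subset_of_nonneg ?_ fun u _ _ => prod_nonneg fun i _ => hμ0 _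
        intro u hu
        rw [mem_biUnion] at hu
        obtain ⟨W, hW, hu⟩ := hu
        rw [mem_filter, Fintype.mem_piFinset] at hu
        rw [mem_filter, Fintype.mem_piFinset]
        refine ⟨fun i => ?_, hu.2⟩
        rw [hG, mem_biUnion]
        exact ⟨W i, Fintype.mem_piFinset.1 hW i, hu.1 i⟩
    _ ≤ _ := hmain
    _ = _ := by rw [htot, prod_const, card_univ, Fintype.card_fin]

/-- the sum over the words with the values of `T ++ s ++ U` -/
theorem all_words2 {D : Finset ℕ} {p : ℕ → ℝ} (hp : ∀ a, 0 ≤ p a) (h1 : ∑ b ∈ D, p b ≤ 1) (hD : ∀ b ∈ D, 2 ≤ b)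
    {t : ℕ} (ht : 2 ≤ t) (x y : ℝ) (hy : 0 ≤ y) (M : ℕ) (T U : List ℕ) (hT : ∀ b ∈ T, b ∈ D) (hU : ∀ b ∈ U, b ∈ D) :
    ∑ j ∈ range M, ∑ s ∈ wl D (t + (j + t)), (if x ≤ Real.logb 2 (V (wn (T ++ s ++ U))) ∧
      Real.logb 2 (V (wn (T ++ s ++ U))) ≤ x + y then pr p s else 0) ≤ y / (2 * Real.logb 2 t) + 1 := by
  classical
  obtain ⟨b0, hb0⟩ : ∃ b0 : ℝ, b0 = y / (2 * Real.logb 2 t) + 1 := ⟨_, rfl⟩
  have hl : 0 ≤ Real.logb 2 t := Real.logb_nonneg (by norm_num) (by exact_mod_cast (by omega : 1 ≤ t))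
  have hb : 0 ≤ b0 := by rw [hb0]; positivity
  rw [← hb0]
  have e : ∀ j ∈ range M, ∑ s ∈ wl D (t + (j + t)), (if x ≤ Real.logb 2 (V (wn (T ++ s ++ U))) ∧
      Real.logb 2 (V (wn (T ++ s ++ U))) ≤ x + y then pr p s else 0) =
      ∑ A ∈ wl D t, ∑ B ∈ wl D t, pr p A * pr p B * ∑ C ∈ wl D j,
        (if x ≤ Real.logb 2 (V (wn ((T ++ A) ++ C ++ (B ++ U)))) ∧
      Real.logb 2 (V (wn ((T ++ A) ++ C ++ (B ++ U)))) ≤ x + y then pr p C else 0) := by
    intro j _
    rw [sum_wl_add]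
    refine sum_congr rfl fun A _ => ?_
    rw [sum_wl_add, sum_comm]
    refine sum_congr rfl fun B _ => ?_
    rw [mul_sum]
    refine sum_congr rfl fun C _ => ?_
    have e2 : T ++ (A ++ (C ++ B)) ++ U = (T ++ A) ++ C ++ (B ++ U) := by simp
    rw [e2, mul_ite, mul_zero, pr_append, pr_append]
    split_ifs <;> ring
  rw [sum_congr rfl e, sum_comm]
  calc ∑ A ∈ wl D t, ∑ j ∈ range M, ∑ B ∈ wl D t, pr p A * pr p B * ∑ C ∈ wl D j,
        (if x ≤ Real.logb 2 (V (wn ((T ++ A) ++ C ++ (B ++ U)))) ∧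
      Real.logb 2 (V (wn ((T ++ A) ++ C ++ (B ++ U)))) ≤ x + y then pr p C else 0)
      ≤ ∑ A ∈ wl D t, ∑ B ∈ wl D t, pr p A * pr p B * b0 := by
        refine sum_le_sum fun A hA => ?_
        rw [sum_comm]
        refine sum_le_sum fun B hB => ?_
        rw [← mul_sum]
        refine mul_le_mul_of_nonneg_left ?_ (mul_nonneg (pr_nonneg hp A) (pr_nonneg hp B))
        rw [mem_wl] at hA hB
        rw [hb0]
        refine kraft_values hp h1 hD ht (A := T ++ A) (B := B ++ U) ?_ ?_ ?_ ?_ x y hy M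
        · intro a ha
          rcases List.mem_append.1 ha with ha | ha
          · exact hD a (hT a ha)
          · exact hD a (hA.1 a ha)
        · intro a ha
          rcases List.mem_append.1 ha with ha | ha
          · exact hD a (hB.1 a ha)
          · exact hD a (hU a ha)
        · rw [List.length_append]; omega
        · rw [List.length_append]; omega
    _ = (∑ A ∈ wl D t, pr p A) * (∑ B ∈ wl D t, pr p B) * b0 := by
        rw [sum_mul, sum_mul]
        refine sum_congr rfl fun A _ => ?_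
        rw [mul_sum, sum_mul]
    _ ≤ 1 * 1 * b0 := by
        refine mul_le_mul_of_nonneg_right ?_ hb
        exact mul_le_mul (sum_pr_le hp h1 t) (sum_pr_le hp h1 t) (sum_nonneg fun s _ => pr_nonneg hp s) zero_le_one
    _ = b0 := by ring

/-- the sum over all words of all weights of a set of weights at least `6 t` -/
theorem window_hw2 {t M : ℕ} (ht : 2 ≤ t) (I : Finset ℕ) (hI : ∀ n ∈ I, 6 * t ≤ n ∧ n < M) (T U : List ℕ)
    (hT : ∀ b ∈ T, b ∈ D23) (hU : ∀ b ∈ U, b ∈ D23) (x y : ℝ) (hy : 0 ≤ y) :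
    ∑ n ∈ I, ∑ s ∈ hw n, (if x ≤ Real.logb 2 (V (wn (T ++ s ++ U))) ∧
      Real.logb 2 (V (wn (T ++ s ++ U))) ≤ x + y then rt ^ n else 0) ≤ y / (2 * Real.logb 2 t) + 1 := by
  classical
  refine le_trans ?_ (all_words2 (p := fun a => rt ^ a) (fun a => pow_nonneg rt_pos.le a) sum_rt two_le_D23 ht x y hy
    M T U hT hU)
  obtain ⟨g, hg⟩ : ∃ g : List ℕ → ℝ, g = fun s => if x ≤ Real.logb 2 (V (wn (T ++ s ++ U))) ∧
      Real.logb 2 (V (wn (T ++ s ++ U))) ≤ x + y then pr (fun a => rt ^ a) s else 0 := ⟨_, rfl⟩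
  have hg0 : ∀ s, 0 ≤ g s := by
    intro s
    rw [hg]
    simp only
    split_ifs
    · exact pr_nonneg (fun a => pow_nonneg rt_pos.le a) s
    · exact le_rfl
  have e1 : ∀ n ∈ I, ∑ s ∈ hw n, (if x ≤ Real.logb 2 (V (wn (T ++ s ++ U))) ∧
      Real.logb 2 (V (wn (T ++ s ++ U))) ≤ x + y then rt ^ n else 0) = ∑ s ∈ hw n, g s := by
    intro n _
    refine sum_congr rfl fun s hs => ?_
    rw [hg]
    simp only
    rw [pr_rt, (mem_hw.1 hs).2]
  have e2 : ∀ j ∈ range M, ∑ s ∈ wl D23 (t + (j + t)), (if x ≤ Real.logb 2 (V (wn (T ++ s ++ U))) ∧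
      Real.logb 2 (V (wn (T ++ s ++ U))) ≤ x + y then pr (fun a => rt ^ a) s else 0) =
      ∑ s ∈ wl D23 (t + (j + t)), g s := by
    intro j _
    rw [hg]
  rw [sum_congr rfl e1, sum_congr rfl e2, ← sum_biUnion, ← sum_biUnion]
  · refine sum_le_sum_of_subset_of_nonneg ?_ fun s _ _ => hg0 s
    intro s hs
    rw [mem_biUnion] at hs ⊢
    obtain ⟨n, hn, hs⟩ := hs
    have hn' := hI n hn
    have h1 := len_hw hs
    refine ⟨s.length - 2 * t, mem_range.2 (by omega), ?_⟩
    rw [mem_wl]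
    exact ⟨(mem_hw.1 hs).1, by omega⟩
  · intro j _ j' _ hne
    rw [Function.onFun, disjoint_left]
    intro s h1 h2
    rw [mem_wl] at h1 h2
    omega
  · intro n _ n' _ hne
    rw [Function.onFun, disjoint_left]
    intro s h1 h2
    exact hne ((mem_hw.1 h1).2.symm.trans (mem_hw.1 h2).2)

end Run7.h867.HW
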