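import Mathlib
import Pool.Agent.Run7.h867.HW.Win

/-!
# Lyndon words in a window of weights (helper867)
-/

set_option autoImplicit false

namespace Run7.h867.HW

open Finset Filter Topology Run7.h867.AM Run7.h867.MZ

/-- a word smaller than `a ^ l y` begins with `a ^ l` -/
theorem lex_prefix {r : ℕ → ℕ → Prop} {a : ℕ} (hr : ∀ c ∈ D23, ¬ r c a) (y : List ℕ) : ∀ (l : ℕ) (w : List ℕ),
    (∀ c ∈ w, c ∈ D23) → l ≤ w.length → List.Lex r w (List.replicate l a ++ y) →
    ∃ w', w = List.replicate l a ++ w' := by
  intro l
  induction l with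
  | zero => intro w _ _ _; exact ⟨w, by simp⟩
  | succ l ih =>
    intro w hw hl hlex
    cases w with
    | nil => simp at hl
    | cons c w =>
      rw [List.replicate_succ, List.cons_append] at hlex
      cases hlex with
      | cons h =>
        obtain ⟨w', hw'⟩ := ih w (fun d hd => hw d (by simp [hd])) (by simpa using hl) h
        exact ⟨w', by rw [hw', List.replicate_succ]; rfl⟩
      | rel h => exact absurd h (hr c (hw c (by simp)))

/-- a Lyndon word which contains `a ^ l` begins with `a ^ l` -/
theorem lyn_prefix {r : ℕ → ℕ → Prop} {a : ℕ} (hr : ∀ c ∈ D23, ¬ r c a) {w : List ℕ} (hw : ∀ c ∈ w, c ∈ D23)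
    (hlyn : IsLyn r w) {l : ℕ} (hl : 1 ≤ l) {x y : List ℕ} (h : w = x ++ (List.replicate l a ++ y)) :
    ∃ w', w = List.replicate l a ++ w' := by
  cases x with
  | nil => exact ⟨y, h⟩
  | cons c x =>
    refine lex_prefix hr y l w hw ?_ (hlyn.2 (c :: x) _ (by simp) ?_ h.symm)
    · rw [h]; simp only [List.length_append, List.length_replicate]; omega
    · intro h2
      have := congrArg List.length h2
      simp only [List.length_append, List.length_replicate, List.length_nil] at this
      omega

open Classical in
/-- the words without the factor `a ^ l` -/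
theorem avoid {a l : ℕ} (ha : a ∈ D23) : ∀ (q n : ℕ),
    ∑ s ∈ (hw n).filter (fun s => q * l ≤ s.length ∧ ¬ ∃ x y, s = x ++ (List.replicate l a ++ y)), rt ^ n ≤
      (1 - rt ^ (a * l)) ^ q := by
  intro q
  induction q with
  | zero =>
    intro n
    rw [pow_zero]
    refine le_trans ?_ (hw_upper n)
    rw [sum_const, nsmul_eq_mul]
    refine mul_le_mul_of_nonneg_right ?_ (pow_nonneg rt_pos.le n)
    exact_mod_cast card_filter_le _ _
  | succ q ih =>
    intro n
    obtain ⟨Bn, hBn⟩ : ∃ Bn, Bn = (wl D23 l).erase (List.replicate l a) := ⟨_, rfl⟩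
    obtain ⟨Y, hY⟩ : ∃ Y : ℕ → Finset (List ℕ), Y = fun m => (hw m).filter (fun s => q * l ≤ s.length ∧
      ¬ ∃ x y, s = x ++ (List.replicate l a ++ y)) := ⟨_, rfl⟩
    have hsub : (hw n).filter (fun s => (q + 1) * l ≤ s.length ∧ ¬ ∃ x y, s = x ++ (List.replicate l a ++ y)) ⊆
        Bn.biUnion fun B => (Y (n - B.sum)).image fun s => B ++ s := by
      intro s hs
      rw [mem_filter] at hs
      obtain ⟨h1, h2, h3⟩ := hs
      obtain ⟨h4, h5⟩ := mem_hw.1 h1
      have hl : l ≤ s.length := by
        refine le_trans ?_ h2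
        rw [add_mul, one_mul]
        omega
      have e : s.take l ++ s.drop l = s := List.take_append_drop l s
      have hBl : (s.take l).length = l := by rw [List.length_take]; omega
      have hBs : (s.take l).sum + (s.drop l).sum = n := by rw [← List.sum_append, e, h5]
      rw [mem_biUnion]
      refine ⟨s.take l, ?_, ?_⟩
      · rw [hBn, Finset.mem_erase, mem_wl]
        refine ⟨?_, fun c hc => h4 c (List.mem_of_mem_take hc), hBl⟩
        intro h6
        exact h3 ⟨[], s.drop l, by rw [List.nil_append, ← h6, e]⟩
      · rw [mem_image]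
        refine ⟨s.drop l, ?_, e⟩
        rw [hY, mem_filter, mem_hw]
        refine ⟨⟨fun c hc => h4 c (List.mem_of_mem_drop hc), by omega⟩, ?_, ?_⟩
        · rw [List.length_drop]
          rw [add_mul, one_mul] at h2
          omega
        · rintro ⟨x, y, hxy⟩
          exact h3 ⟨s.take l ++ x, y, by rw [List.append_assoc, ← hxy, e]⟩
    have hp0 : ∀ B : List ℕ, 0 ≤ rt ^ B.sum := fun B => pow_nonneg rt_pos.le _
    calc ∑ s ∈ (hw n).filter (fun s => (q + 1) * l ≤ s.length ∧ ¬ ∃ x y, s = x ++ (List.replicate l a ++ y)), rt ^ n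
        = ∑ s ∈ (hw n).filter (fun s => (q + 1) * l ≤ s.length ∧ ¬ ∃ x y, s = x ++ (List.replicate l a ++ y)),
          rt ^ s.sum := by
          refine sum_congr rfl fun s hs => ?_
          rw [(mem_hw.1 (mem_filter.1 hs).1).2]
      _ ≤ ∑ s ∈ Bn.biUnion fun B => (Y (n - B.sum)).image fun s => B ++ s, rt ^ s.sum :=
          sum_le_sum_of_subset_of_nonneg hsub fun s _ _ => hp0 s
      _ ≤ ∑ B ∈ Bn, ∑ s ∈ (Y (n - B.sum)).image fun s => B ++ s, rt ^ s.sum :=
          Run7.h867.GT.wbiUnion _ _ _ hp0
      _ ≤ ∑ B ∈ Bn, rt ^ B.sum * (1 - rt ^ (a * l)) ^ q := by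
          refine sum_le_sum fun B _ => ?_
          rw [sum_image (fun s _ s' _ h => List.append_cancel_left h)]
          have h7 : ∀ s ∈ Y (n - B.sum), rt ^ (B ++ s).sum = rt ^ B.sum * rt ^ (n - B.sum) := by
            intro s hs
            rw [hY, mem_filter] at hs
            rw [List.sum_append, pow_add, (mem_hw.1 hs.1).2]
          rw [sum_congr rfl h7, ← mul_sum]
          refine mul_le_mul_of_nonneg_left ?_ (hp0 B)
          have := ih (n - B.sum)
          rw [hY]
          exact this
      _ = (∑ B ∈ Bn, rt ^ B.sum) * (1 - rt ^ (a * l)) ^ q := by rw [sum_mul]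
      _ ≤ (1 - rt ^ (a * l)) * (1 - rt ^ (a * l)) ^ q := by
          have h8 : rt ^ (a * l) ≤ 1 := pow_le_one₀ rt_pos.le (by linarith [rt_lt])
          refine mul_le_mul_of_nonneg_right ?_ (pow_nonneg (by linarith) q)
          have h9 := sum_pr_le (D := D23) (p := fun a => rt ^ a) (fun a => pow_nonneg rt_pos.le a) sum_rt l
          simp only [pr_rt] at h9
          have h10 : List.replicate l a ∈ wl D23 l := by
            rw [mem_wl]
            exact ⟨fun c hc => by rw [List.eq_of_mem_replicate hc]; exact ha, List.length_replicate⟩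
          have h11 := Finset.add_sum_erase (wl D23 l) (fun s => rt ^ s.sum) h10
          rw [hBn]
          simp only [List.sum_replicate, smul_eq_mul] at h11
          rw [mul_comm l a] at h11
          linarith
      _ = (1 - rt ^ (a * l)) ^ (q + 1) := by rw [pow_succ]; ring

open Classical in
/-- the values of the Lyndon words in a window of weights; `Tx rev` describes the direction of reading -/
theorem lyn_window {r : ℕ → ℕ → Prop} {a l t w M q : ℕ} (hr : ∀ c ∈ D23, ¬ r c a) (ha : a ∈ D23) (hl : 1 ≤ l)
    (ht : 2 ≤ t) (hw6 : 6 * t + a * l ≤ w) (hq : 3 * (q * l) ≤ w) (rev : Bool) (x y : ℝ) (hy : 0 ≤ y) :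
    ∑ n ∈ Ico w (w + M), ∑ s ∈ (hw n).filter (fun s => IsLyn r (if rev then s.reverse else s) ∧
      x ≤ Real.logb 2 (V (wn s)) ∧ Real.logb 2 (V (wn s)) ≤ x + y), rt ^ n ≤
      rt ^ (a * l) * (y / (2 * Real.logb 2 t) + 1) + M * (1 - rt ^ (a * l)) ^ q := by
  have hpn : ∀ n : ℕ, 0 ≤ rt ^ n := fun n => pow_nonneg rt_pos.le n
  -- the words which do not contain `a ^ l`
  have h1 : ∀ n ∈ Ico w (w + M), ∑ s ∈ (hw n).filter (fun s => IsLyn r (if rev then s.reverse else s) ∧
      x ≤ Real.logb 2 (V (wn s)) ∧ Real.logb 2 (V (wn s)) ≤ x + y), rt ^ n ≤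
      rt ^ (a * l) * (∑ s ∈ hw (n - a * l), (if x ≤ Real.logb 2 (V (wn ((if rev then [] else List.replicate l a) ++ s ++
        (if rev then List.replicate l a else [])))) ∧ Real.logb 2 (V (wn ((if rev then [] else List.replicate l a) ++ s ++
        (if rev then List.replicate l a else [])))) ≤ x + y then rt ^ (n - a * l) else 0)) +
      (1 - rt ^ (a * l)) ^ q := by
    intro n hn
    rw [mem_Ico] at hn
    have hsub : (hw n).filter (fun s => IsLyn r (if rev then s.reverse else s) ∧
      x ≤ Real.logb 2 (V (wn s)) ∧ Real.logb 2 (V (wn s)) ≤ x + y) ⊆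
      ((hw (n - a * l)).filter (fun s => x ≤ Real.logb 2 (V (wn ((if rev then [] else List.replicate l a) ++ s ++
        (if rev then List.replicate l a else [])))) ∧ Real.logb 2 (V (wn ((if rev then [] else List.replicate l a) ++ s ++
        (if rev then List.replicate l a else [])))) ≤ x + y)).image
          (fun s => (if rev then [] else List.replicate l a) ++ s ++ (if rev then List.replicate l a else [])) ∪
      (hw n).filter (fun s => q * l ≤ s.length ∧
        ¬ ∃ x y, s = x ++ (List.replicate l a ++ y)) := by
      intro s hs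
      rw [mem_filter] at hs
      obtain ⟨hs1, hs2, hs3⟩ := hs
      obtain ⟨h4, h5⟩ := mem_hw.1 hs1
      have hlen := len_hw hs1
      rw [mem_union]
      by_cases hc : ∃ x y, s = x ++ (List.replicate l a ++ y)
      · left
        obtain ⟨x1, y1, hxy⟩ := hc
        cases rev with
        | false =>
          obtain ⟨w', hw'⟩ := lyn_prefix hr h4 hs2 hl hxy
          rw [mem_image]
          refine ⟨w', ?_, by simp [hw']⟩
          rw [mem_filter, mem_hw]
          refine ⟨⟨fun c hc => h4 c (by rw [hw']; simp [hc]), ?_⟩, ?_⟩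
          · rw [hw', List.sum_append, List.sum_replicate, smul_eq_mul, mul_comm] at h5
            omega
          · have e : ((if false = true then [] else List.replicate l a) ++ w' ++
              (if false = true then List.replicate l a else [])) = s := by simp [hw']
            rw [e]
            exact hs3
        | true =>
          have h4' : ∀ c ∈ s.reverse, c ∈ D23 := fun c hc => h4 c (List.mem_reverse.1 hc)
          have hxy' : s.reverse = y1.reverse ++ (List.replicate l a ++ x1.reverse) := by
            rw [hxy]; simp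
          obtain ⟨w', hw'⟩ := lyn_prefix hr h4' hs2 hl hxy'
          have hw2 : s = w'.reverse ++ List.replicate l a := by
            rw [← List.reverse_reverse s, hw']; simp
          rw [mem_image]
          refine ⟨w'.reverse, ?_, by simp [hw2]⟩
          rw [mem_filter, mem_hw]
          refine ⟨⟨fun c hc => h4 c (by rw [hw2]; exact List.mem_append_left _ hc), ?_⟩, ?_⟩
          · rw [hw2, List.sum_append, List.sum_replicate, smul_eq_mul, mul_comm l a] at h5
            omega
          · have e : ((if true = true then [] else List.replicate l a) ++ w'.reverse ++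
              (if true = true then List.replicate l a else [])) = s := by simp [hw2]
            rw [e]
            exact hs3
      · right
        rw [mem_filter]
        exact ⟨hs1, by omega, hc⟩
    refine (sum_le_sum_of_subset_of_nonneg hsub fun _ _ _ => hpn n).trans ?_
    have hunion : ∀ X Y : Finset (List ℕ), ∑ s ∈ X ∪ Y, rt ^ n ≤ ∑ s ∈ X, rt ^ n + ∑ s ∈ Y, rt ^ n := by
      intro X Y
      have h6 := sum_union_inter (s₁ := X) (s₂ := Y) (f := fun _ => rt ^ n)
      have h7 : 0 ≤ ∑ s ∈ X ∩ Y, rt ^ n := sum_nonneg fun _ _ => hpn n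
      linarith
    refine (hunion _ _).trans ?_
    refine add_le_add ?_ (avoid ha q n)
    rw [sum_const, nsmul_eq_mul]
    have hci := card_image_le (s := (hw (n - a * l)).filter (fun s => x ≤ Real.logb 2 (V (wn ((if rev then [] else List.replicate l a) ++ s ++
        (if rev then List.replicate l a else [])))) ∧ Real.logb 2 (V (wn ((if rev then [] else List.replicate l a) ++ s ++
        (if rev then List.replicate l a else [])))) ≤ x + y))
        (f := fun s => (if rev then [] else List.replicate l a) ++ s ++ (if rev then List.replicate l a else []))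
    refine (mul_le_mul_of_nonneg_right (Nat.cast_le.2 hci) (hpn n)).trans (le_of_eq ?_)
    rw [← sum_filter, sum_const, nsmul_eq_mul]
    have e : rt ^ n = rt ^ (a * l) * rt ^ (n - a * l) := by rw [← pow_add]; congr 1; omega
    rw [e]
    ring
  refine (sum_le_sum h1).trans ?_
  rw [sum_add_distrib, ← mul_sum, sum_const, Nat.card_Ico, nsmul_eq_mul, Nat.add_sub_cancel_left]
  refine add_le_add_left ?_ _
  refine mul_le_mul_of_nonneg_left ?_ (hpn _)
  have hTm : ∀ b ∈ (if rev then ([] : List ℕ) else List.replicate l a), b ∈ D23 := by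
    intro b hb
    split_ifs at hb
    · simp at hb
    · rw [List.eq_of_mem_replicate hb]; exact ha
  have hUm : ∀ b ∈ (if rev then List.replicate l a else ([] : List ℕ)), b ∈ D23 := by
    intro b hb
    split_ifs at hb
    · rw [List.eq_of_mem_replicate hb]; exact ha
    · simp at hb
  have h2 := window_hw2 (M := w + M) ht ((Ico w (w + M)).image fun n => n - a * l) (by
    intro n hn
    rw [mem_image] at hn
    obtain ⟨m, hm, rfl⟩ := hn
    rw [mem_Ico] at hm
    omega) _ _ hTm hUm x y hy
  rw [sum_image (by
    intro m hm m' hm' h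
    rw [mem_coe, mem_Ico] at hm hm'
    simp only at h
    omega)] at h2
  exact h2

end Run7.h867.HW
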