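import Mathlib
import Pool.Agent.Run7.h867.HW.Lyn2

/-!
# The choice of the parameters (helper867)
-/

set_option autoImplicit false

namespace Run7.h867.HW

open Finset Filter Topology

theorem log_ev : ∃ w₀ : ℕ, ∀ w : ℕ, w₀ ≤ w → 1000 ≤ w ∧ 1 ≤ Real.log w ∧ 100 * Real.log w ^ 2 < w := by
  have h1 : (fun x : ℝ => Real.log x ^ 2) =o[atTop] (fun x : ℝ => x) := Real.isLittleO_pow_log_id_atTop
  have h2 := h1.def (show (0 : ℝ) < 1 / 200 by norm_num)
  have h3 := (tendsto_natCast_atTop_atTop (R := ℝ)).eventually h2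
  have h4 : ∀ᶠ w : ℕ in atTop, 1 ≤ Real.log w :=
    (tendsto_natCast_atTop_atTop (R := ℝ)).eventually (Real.tendsto_log_atTop.eventually_ge_atTop 1)
  obtain ⟨w1, hw1⟩ := eventually_atTop.1 (h3.and h4)
  refine ⟨w1 + 1000, fun w hw => ?_⟩
  obtain ⟨h5, h6⟩ := hw1 w (by omega)
  refine ⟨by omega, h6, ?_⟩
  have hw0 : (0 : ℝ) < w := by exact_mod_cast (by omega : 0 < w)
  rw [Real.norm_eq_abs, Real.norm_eq_abs, abs_of_nonneg (sq_nonneg _), abs_of_pos hw0] at h5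
  linarith

theorem params {a : ℕ} (ha : a ∈ D23) : ∃ w₀ : ℕ, ∀ w : ℕ, w₀ ≤ w → 1 ≤ Real.log w ∧ ∃ l t q : ℕ, 1 ≤ l ∧ 2 ≤ t ∧
    6 * t + a * l ≤ w ∧ 3 * (q * l) ≤ w ∧ rt ^ (a * l) ≤ 100 * Real.log w ^ 2 / w ∧
    (1 - rt ^ (a * l)) ^ q ≤ 1 / (w : ℝ) ^ 2 ∧ Real.log w / (2 * Real.log 2) ≤ Real.logb 2 t := by
  classical
  obtain ⟨w₀, hw₀⟩ := log_ev
  refine ⟨w₀, fun w hw => ?_⟩
  obtain ⟨h1000, hL1, hL2⟩ := hw₀ w hw
  refine ⟨hL1, ?_⟩
  obtain ⟨L, hL⟩ : ∃ L : ℝ, L = Real.log w := ⟨_, rfl⟩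
  rw [← hL] at hL1 hL2 ⊢
  have hr0 := rt_pos
  have hr1 : rt < 4 / 5 := rt_lt
  have hr2 : 3 / 4 < rt := rt_gt
  have ha' := mem_D23.1 ha
  have hwr : (1000 : ℝ) ≤ w := by exact_mod_cast h1000
  have hw0 : (0 : ℝ) < w := by linarith
  have hB0 : 0 < 100 * L ^ 2 / w := by positivity
  have hB1 : 100 * L ^ 2 / w < 1 := by rw [div_lt_one hw0]; exact hL2
  have hex : ∃ l : ℕ, rt ^ (a * l) ≤ 100 * L ^ 2 / w := by
    have h2 : Tendsto (fun l : ℕ => (rt ^ a) ^ l) atTop (𝓝 0) :=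
      tendsto_pow_atTop_nhds_zero_of_lt_one (by positivity) (pow_lt_one₀ hr0.le (by linarith) (by omega))
    obtain ⟨l, hl⟩ := (h2.eventually (gt_mem_nhds hB0)).exists
    exact ⟨l, by rw [pow_mul]; exact hl.le⟩
  obtain ⟨l, hl⟩ : ∃ l, l = Nat.find hex := ⟨_, rfl⟩
  have hl1 : rt ^ (a * l) ≤ 100 * L ^ 2 / w := by rw [hl]; exact Nat.find_spec hex
  have hl0 : 1 ≤ l := by
    by_contra h
    have h2 : l = 0 := by omega
    rw [h2, mul_zero, pow_zero] at hl1
    linarith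
  have hl2 : 100 * L ^ 2 / w < rt ^ (a * (l - 1)) := by
    have := Nat.find_min hex (m := l - 1) (by omega)
    exact not_le.1 this
  -- the size of `l`
  have hlog54 : (1 : ℝ) / 5 ≤ -Real.log rt := by
    have h3 := Real.one_sub_inv_le_log_of_pos (show (0 : ℝ) < rt⁻¹ by positivity)
    rw [inv_inv, Real.log_inv] at h3
    linarith
  have hlL : (l : ℝ) ≤ 7 / 2 * L := by
    have h3 : 1 / (w : ℝ) < rt ^ (a * (l - 1)) := by
      refine lt_of_le_of_lt ?_ hl2
      refine div_le_div_of_nonneg_right ?_ hw0.le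
      nlinarith
    have h4 := Real.log_lt_log (by positivity) h3
    rw [Real.log_pow, one_div, Real.log_inv, ← hL] at h4
    have h5 : (2 : ℝ) * (l - 1) ≤ ((a * (l - 1) : ℕ) : ℝ) := by
      have h6 : ((l - 1 : ℕ) : ℝ) = (l : ℝ) - 1 := by push_cast [Nat.cast_sub hl0]; ring
      rw [Nat.cast_mul, h6]
      have h7 : (2 : ℝ) ≤ a := by exact_mod_cast (by omega : 2 ≤ a)
      have h8 : (0 : ℝ) ≤ (l : ℝ) - 1 := by
        have : (1 : ℝ) ≤ l := by exact_mod_cast hl0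
        linarith
      exact mul_le_mul_of_nonneg_right h7 h8
    have h8 : (0 : ℝ) ≤ (l : ℝ) - 1 := by
      have : (1 : ℝ) ≤ l := by exact_mod_cast hl0
      linarith
    have h9 : (2 : ℝ) * (l - 1) * (1 / 5) ≤ ((a * (l - 1) : ℕ) : ℝ) * -Real.log rt := by
      exact mul_le_mul h5 hlog54 (by norm_num) (Nat.cast_nonneg _)
    linarith
  have hlr : (1 : ℝ) ≤ l := by exact_mod_cast hl0
  -- the lower bound for `rt ^ (a l)`
  have hp1 : 27 / 64 * (100 * L ^ 2 / w) ≤ rt ^ (a * l) := by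
    have e : rt ^ (a * l) = rt ^ (a * (l - 1)) * rt ^ a := by
      rw [← pow_add]; congr 1
      rw [Nat.mul_sub, mul_one]
      have : a ≤ a * l := Nat.le_mul_of_pos_right a (by omega)
      omega
    have h3 : (27 : ℝ) / 64 ≤ rt ^ a := by
      calc (27 : ℝ) / 64 ≤ (3 / 4) ^ 3 := by norm_num
        _ ≤ rt ^ 3 := by gcongr
        _ ≤ rt ^ a := pow_le_pow_of_le_one hr0.le (by linarith) (by omega)
    rw [e, mul_comm (27 / 64 : ℝ)]
    exact mul_le_mul hl2.le h3 (by norm_num) (by positivity)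
  have hp2 : rt ^ (a * l) ≤ 1 := pow_le_one₀ hr0.le (by linarith)
  obtain ⟨q, hq⟩ : ∃ q : ℕ, q = w / (3 * l) := ⟨_, rfl⟩
  have hq1 : 3 * (q * l) ≤ w := by
    rw [hq]
    calc 3 * (w / (3 * l) * l) = w / (3 * l) * (3 * l) := by ring
      _ ≤ w := Nat.div_mul_le_self _ _
  have hq2 : (w : ℝ) / (21 * L) ≤ q := by
    have h3 : w < (q + 1) * (3 * l) := by
      rw [hq]
      exact (Nat.div_lt_iff_lt_mul (by omega)).1 (Nat.lt_succ_self _)
    have h4 : (w : ℝ) < ((q : ℝ) + 1) * (3 * l) := by exact_mod_cast h3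
    have h5 : (w : ℝ) < ((q : ℝ) + 1) * (3 * (7 / 2 * L)) := by
      refine lt_of_lt_of_le h4 ?_
      gcongr
    rw [div_le_iff₀ (by positivity)]
    nlinarith
  have hpq : 2 * L ≤ q * rt ^ (a * l) := by
    calc 2 * L ≤ w / (21 * L) * (27 / 64 * (100 * L ^ 2 / w)) := by
          have : w / (21 * L) * (27 / 64 * (100 * L ^ 2 / w)) = 2700 / 1344 * L := by
            field_simp
            ring
          rw [this]
          linarith
      _ ≤ q * rt ^ (a * l) := mul_le_mul hq2 hp1 (by positivity) (Nat.cast_nonneg _)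
  obtain ⟨t, ht⟩ : ∃ t : ℕ, t = w / 12 := ⟨_, rfl⟩
  refine ⟨l, t, q, hl0, by omega, ?_, hq1, hl1, ?_, ?_⟩
  · have h3 : (a : ℝ) * l ≤ 3 * (7 / 2 * L) := by
      have h4 : (a : ℝ) ≤ 3 := by exact_mod_cast (by omega : a ≤ 3)
      exact mul_le_mul h4 hlL (Nat.cast_nonneg _) (by norm_num)
    have h5 : (6 : ℝ) * t ≤ w / 2 := by
      have : 12 * t ≤ w := by omega
      have : (12 : ℝ) * t ≤ w := by exact_mod_cast this
      linarith
    have h6 : (6 : ℝ) * t + a * l ≤ w := by nlinarith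
    exact_mod_cast h6
  · calc (1 - rt ^ (a * l)) ^ q ≤ (Real.exp (-rt ^ (a * l))) ^ q := by
          refine pow_le_pow_left₀ (by linarith) ?_ q
          have := Real.add_one_le_exp (-rt ^ (a * l))
          linarith
      _ = Real.exp (-(q * rt ^ (a * l))) := by rw [← Real.exp_nat_mul]; ring_nf
      _ ≤ Real.exp (-(2 * L)) := by
          refine Real.exp_le_exp.2 ?_
          linarith
      _ = 1 / (w : ℝ) ^ 2 := by
          rw [Real.exp_neg, one_div, hL, two_mul, Real.exp_add, Real.exp_log hw0, sq]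
  · have h3 : (w : ℝ) ≤ (t : ℝ) ^ 2 := by
      have h4 : w < 12 * (t + 1) := by omega
      have h5 : 83 ≤ t := by omega
      have h6 : w ≤ t ^ 2 := by nlinarith
      exact_mod_cast h6
    have h7 : Real.log w ≤ 2 * Real.log t := by
      have := Real.log_le_log hw0 h3
      rw [Real.log_pow] at this
      push_cast at this
      exact this
    rw [Real.logb, hL]
    have hlog2 : 0 < Real.log 2 := Real.log_pos (by norm_num)
    rw [div_le_div_iff₀ (by positivity) hlog2]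
    nlinarith

end Run7.h867.HW
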