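import Mathlib

/-!
# A weighted Schwartz-Zippel lemma (helper867)
-/

set_option autoImplicit false

namespace Run7.h867.HW

open Finset

open Classical in
/-- **Schwartz-Zippel for functions with few coincidences**: if every real number is the value of `f_i` at a proportion at
most `κ` of the elements of `L_i`, then a nonzero real polynomial vanishes at a proportion at most `κ deg P` of the
tuples -/
theorem schwartz_zippel {α : Type*} [DecidableEq α] (κ : ℝ) (hκ : 0 ≤ κ) : ∀ (N : ℕ) (L : Fin N → Finset α)
    (f : Fin N → α → ℝ), (∀ i, ∀ v : ℝ, (#((L i).filter fun x => f i x = v) : ℝ) ≤ κ * #(L i)) →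
    ∀ P : MvPolynomial (Fin N) ℝ, P ≠ 0 →
      (#((Fintype.piFinset L).filter fun u => MvPolynomial.eval (fun i => f i (u i)) P = 0) : ℝ) ≤
        P.totalDegree * κ * ∏ i, (#(L i) : ℝ) := by
  intro N
  induction N with
  | zero =>
    intro L f _ P hP
    have h1 : (Fintype.piFinset L).filter (fun u => MvPolynomial.eval (fun i => f i (u i)) P = 0) = ∅ := by
      rw [filter_eq_empty_iff]
      intro u _ h
      apply hP
      rw [MvPolynomial.eq_C_of_isEmpty P] at h ⊢
      rw [MvPolynomial.eval_C] at h
      rw [h, map_zero]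
    rw [h1, card_empty, Nat.cast_zero]
    positivity
  | succ N ih =>
    intro L f hf P hP
    obtain ⟨p, hp⟩ : ∃ p, p = MvPolynomial.finSuccEquiv ℝ N P := ⟨_, rfl⟩
    have hp0 : p ≠ 0 := by
      rw [hp]
      intro h
      exact hP ((MvPolynomial.finSuccEquiv ℝ N).injective (by rw [h, map_zero]))
    obtain ⟨Q, hQ⟩ : ∃ Q, Q = p.leadingCoeff := ⟨_, rfl⟩
    have hQ0 : Q ≠ 0 := by rw [hQ]; exact Polynomial.leadingCoeff_ne_zero.2 hp0
    have hdeg : Q.totalDegree + p.natDegree ≤ P.totalDegree := by
      rw [hQ, hp]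
      exact MvPolynomial.totalDegree_coeff_finSuccEquiv_add_le P _ (by
        have : (MvPolynomial.finSuccEquiv ℝ N P).leadingCoeff ≠ 0 := by rw [← hp]; exact Polynomial.leadingCoeff_ne_zero.2 hp0
        exact this)
    obtain ⟨T, hT⟩ : ∃ T, T = Fintype.piFinset fun i : Fin N => L i.succ := ⟨_, rfl⟩
    obtain ⟨B, hB⟩ : ∃ B, B = (Fintype.piFinset L).filter fun u => MvPolynomial.eval (fun i => f i (u i)) P = 0 := ⟨_, rfl⟩
    have h1 : #B = ∑ c ∈ T, #(B.filter fun u => Fin.tail u = c) := by
      refine card_eq_sum_card_fiberwise fun u hu => ?_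
      rw [mem_coe, hB, mem_filter, Fintype.mem_piFinset] at hu
      rw [mem_coe, hT, Fintype.mem_piFinset]
      exact fun i => hu.1 i.succ
    have h2 : ∀ c ∈ T, #(B.filter fun u => Fin.tail u = c) ≤ #((L 0).filter fun x =>
        MvPolynomial.eval (Fin.cons (f 0 x) fun i => f i.succ (c i)) P = 0) := by
      intro c _
      refine card_le_card_of_injOn (fun u => u 0) ?_ ?_
      · intro u hu
        rw [mem_coe, mem_filter, hB, mem_filter, Fintype.mem_piFinset] at hu
        obtain ⟨⟨hu1, hu2⟩, rfl⟩ := hu
        rw [mem_coe, mem_filter]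
        refine ⟨hu1 0, ?_⟩
        rw [← hu2]
        congr 1
        congr 1
        funext i
        refine Fin.cases ?_ (fun i => ?_) i
        · simp
        · simp [Fin.tail]
      · intro u hu u' hu' h
        rw [mem_coe, mem_filter] at hu hu'
        rw [← Fin.cons_self_tail u, ← Fin.cons_self_tail u', hu.2, hu'.2]
        simp only at h
        rw [h]
    have h3 : ∀ c : Fin N → α, MvPolynomial.eval (fun i => f i.succ (c i)) Q ≠ 0 →
        (#((L 0).filter fun x =>
        MvPolynomial.eval (Fin.cons (f 0 x) fun i => f i.succ (c i)) P = 0) : ℝ) ≤ p.natDegree * κ * #(L 0) := by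
      intro c hc
      obtain ⟨q, hq⟩ : ∃ q : Polynomial ℝ, q = p.map (MvPolynomial.eval fun i => f i.succ (c i)) := ⟨_, rfl⟩
      have hq0 : q ≠ 0 := by
        intro h
        apply hc
        have h4 := congrArg (fun r => Polynomial.coeff r p.natDegree) h
        rw [hq] at h4
        simp only [Polynomial.coeff_map, Polynomial.coeff_zero] at h4
        rw [hQ]
        exact h4
      have hqd : q.natDegree ≤ p.natDegree := by rw [hq]; exact Polynomial.natDegree_map_le
      have h5 : (L 0).filter (fun x => MvPolynomial.eval (Fin.cons (f 0 x) fun i => f i.succ (c i)) P = 0) ⊆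
          q.roots.toFinset.biUnion fun v => (L 0).filter fun x => f 0 x = v := by
        intro x hx
        rw [mem_filter, MvPolynomial.eval_eq_eval_mv_eval', ← hp, ← hq] at hx
        rw [mem_biUnion]
        refine ⟨f 0 x, ?_, ?_⟩
        · rw [Multiset.mem_toFinset, Polynomial.mem_roots hq0]
          exact hx.2
        · rw [mem_filter]
          exact ⟨hx.1, rfl⟩
      calc _ ≤ (#(q.roots.toFinset.biUnion fun v => (L 0).filter fun x => f 0 x = v) : ℝ) := by
            exact_mod_cast card_le_card h5
        _ ≤ ∑ v ∈ q.roots.toFinset, (#((L 0).filter fun x => f 0 x = v) : ℝ) := by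
            exact_mod_cast card_biUnion_le
        _ ≤ ∑ v ∈ q.roots.toFinset, κ * #(L 0) := sum_le_sum fun v _ => hf 0 v
        _ = #(q.roots.toFinset) * (κ * #(L 0)) := by rw [sum_const, nsmul_eq_mul]
        _ ≤ p.natDegree * (κ * #(L 0)) := by
            refine mul_le_mul_of_nonneg_right ?_ (by positivity)
            have : #(q.roots.toFinset) ≤ p.natDegree :=
              (Multiset.toFinset_card_le _).trans ((Polynomial.card_roots' q).trans hqd)
            exact_mod_cast this
        _ = _ := by ring
    have ihQ := ih (fun i => L i.succ) (fun i => f i.succ) (fun i => hf i.succ) Q hQ0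
    rw [← hT] at ihQ
    obtain ⟨Z, hZ⟩ : ∃ Z, Z = T.filter fun c => MvPolynomial.eval (fun i => f i.succ (c i)) Q = 0 := ⟨_, rfl⟩
    rw [← hZ] at ihQ
    have hTc : (#T : ℝ) = ∏ i : Fin N, (#(L i.succ) : ℝ) := by
      rw [hT, Fintype.card_piFinset]
      push_cast
      rfl
    rw [← hB, Fin.prod_univ_succ]
    have h6 : (#B : ℝ) ≤ #Z * #(L 0) + #T * (p.natDegree * κ * #(L 0)) := by
      rw [h1]
      push_cast
      calc ∑ c ∈ T, (#(B.filter fun u => Fin.tail u = c) : ℝ)
          ≤ ∑ c ∈ T, ((if MvPolynomial.eval (fun i => f i.succ (c i)) Q = 0 then (#(L 0) : ℝ) else 0) +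
              p.natDegree * κ * #(L 0)) := by
            refine sum_le_sum fun c hc => ?_
            have h7 : (#(B.filter fun u => Fin.tail u = c) : ℝ) ≤ #((L 0).filter fun x =>
                MvPolynomial.eval (Fin.cons (f 0 x) fun i => f i.succ (c i)) P = 0) := by exact_mod_cast h2 c hc
            have h8 : (0 : ℝ) ≤ p.natDegree * κ * #(L 0) := by positivity
            split_ifs with h9
            · have h10 : (#((L 0).filter fun x =>
                MvPolynomial.eval (Fin.cons (f 0 x) fun i => f i.succ (c i)) P = 0) : ℝ) ≤ #(L 0) := by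
                exact_mod_cast card_filter_le _ _
              linarith
            · have h10 := h3 c h9
              linarith
        _ = _ := by
            rw [sum_add_distrib, ← sum_filter, sum_const, sum_const, nsmul_eq_mul, nsmul_eq_mul, ← hZ]
    have h7 : (0 : ℝ) ≤ #(L 0) := Nat.cast_nonneg _
    have h8 : ((Q.totalDegree : ℝ) + p.natDegree) ≤ P.totalDegree := by exact_mod_cast hdeg
    have h9 : (0 : ℝ) ≤ ∏ i : Fin N, (#(L i.succ) : ℝ) := by positivity
    calc (#B : ℝ) ≤ #Z * #(L 0) + #T * (p.natDegree * κ * #(L 0)) := h6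
      _ ≤ (Q.totalDegree * κ * ∏ i : Fin N, (#(L i.succ) : ℝ)) * #(L 0) +
          (∏ i : Fin N, (#(L i.succ) : ℝ)) * (p.natDegree * κ * #(L 0)) := by
          rw [hTc]
          have := mul_le_mul_of_nonneg_right ihQ h7
          linarith
      _ = (Q.totalDegree + p.natDegree) * (κ * (#(L 0) * ∏ i : Fin N, (#(L i.succ) : ℝ))) := by ring
      _ ≤ P.totalDegree * (κ * (#(L 0) * ∏ i : Fin N, (#(L i.succ) : ℝ))) :=
          mul_le_mul_of_nonneg_right h8 (by positivity)
      _ = _ := by ring

end Run7.h867.HW
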